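import Mathlib.Tactic.Monotonicity.Lemmas
import Mathlib.FieldTheory.IsAlgClosed.AlgebraicClosure
import Mathlib.RingTheory.Flat.TorsionFree
import Mathlib.Algebra.Order.Ring.Star
import Mathlib.RingTheory.Valuation.LocalSubring
import Mathlib.Analysis.CStarAlgebra.Classes
import Mathlib.RingTheory.RootsOfUnity.Complex
import Mathlib.RingTheory.SimpleRing.Principal
import Mathlib.RingTheory.HahnSeries.Summable
import Mathlib.RingTheory.HahnSeries.Valuation
import Mathlib.RingTheory.Henselian
import Mathlib.RingTheory.RegularLocalRing.Defs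

/-! Hahn series over an algebraically closed field with a divisible group of exponents form an
algebraically closed field (the proof of MP_52008a_ag, for a general group of exponents);
automorphisms given by characters of the group of exponents. -/

open Polynomial

namespace Pool.Agent.MP_5fa3de_ag.Hahn

section Sph

variable {Γ R : Type*} [LinearOrder Γ]

/-- Spherical completeness: a family of pairwise intersecting balls has a common point. -/
theorem sph [AddGroup R] {ι : Type*} (a : ι → HahnSeries Γ R) (r : ι → WithTop Γ)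
    (h : ∀ i j, min (r i) (r j) ≤ (a i - a j).orderTop) :
    ∃ x : HahnSeries Γ R, ∀ i, r i ≤ (x - a i).orderTop := by
  classical
  let f : Γ → R := fun g => if hg : ∃ i, (g : WithTop Γ) < r i then (a hg.choose).coeff g else 0
  have key : ∀ i (g : Γ), (g : WithTop Γ) < r i → f g = (a i).coeff g := by
    intro i g hg
    have hex : ∃ i, (g : WithTop Γ) < r i := ⟨i, hg⟩
    have h1 : (g : WithTop Γ) < (a hex.choose - a i).orderTop :=
      lt_of_lt_of_le (lt_min hex.choose_spec hg) (h _ _)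
    have h2 := HahnSeries.coeff_eq_zero_of_lt_orderTop h1
    rw [HahnSeries.coeff_sub, sub_eq_zero] at h2
    simp only [f, dif_pos hex, h2]
  have hwf : (Function.support f).IsWF := by
    rw [Set.isWF_iff_no_descending_seq]
    intro g hg hmem
    have h0 : ∃ i, ((g 0 : Γ) : WithTop Γ) < r i := by
      by_contra hne
      exact hmem 0 (by simp only [f]; exact dif_neg hne)
    obtain ⟨i, hi⟩ := h0
    have hw := (a i).isWF_support
    rw [Set.isWF_iff_no_descending_seq] at hw
    refine hw g hg fun n => ?_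
    have hle : ((g n : Γ) : WithTop Γ) < r i :=
      lt_of_le_of_lt (WithTop.coe_le_coe.mpr (hg.antitone (Nat.zero_le n))) hi
    have := hmem n
    rw [Function.mem_support] at this
    rw [HahnSeries.mem_support]
    exact fun h0 => this ((key i _ hle).trans h0)
  refine ⟨⟨f, hwf.isPWO⟩, fun i => ?_⟩
  rw [HahnSeries.le_orderTop_iff_forall]
  intro j hj
  rw [HahnSeries.coeff_sub, sub_eq_zero]
  exact key i j hj

end Sph

variable {Γ K : Type*} [AddCommGroup Γ] [LinearOrder Γ] [IsOrderedAddMonoid Γ] [Field K]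

variable (Γ K) in
/-- The valuation ring of the field of Hahn series. -/
def O : Subring (HahnSeries Γ K) where
  carrier := {x | 0 ≤ x.orderTop}
  mul_mem' := fun {x y} hx hy => by
    simp only [Set.mem_ofPred_eq, HahnSeries.orderTop_mul] at *
    exact add_nonneg hx hy
  one_mem' := by simp
  add_mem' := fun {x y} hx hy => by
    simp only [Set.mem_ofPred_eq] at *
    exact (le_min hx hy).trans HahnSeries.min_orderTop_le_orderTop_add
  zero_mem' := by simp
  neg_mem' := fun {x} hx => by simpa using hx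

theorem mem_O {x : HahnSeries Γ K} : x ∈ O Γ K ↔ 0 ≤ x.orderTop := Iff.rfl

omit [IsOrderedAddMonoid Γ] in
theorem coeff_zero_eq_zero_iff {x : HahnSeries Γ K} (hx : 0 ≤ x.orderTop) :
    x.coeff 0 = 0 ↔ 0 < x.orderTop := by
  constructor
  · intro h
    exact lt_of_le_of_ne hx (HahnSeries.orderTop_ne_of_coeff_eq_zero h).symm
  · exact fun h => HahnSeries.coeff_eq_zero_of_lt_orderTop h

omit [AddCommGroup Γ] [IsOrderedAddMonoid Γ] in
theorem leadingCoeff_of_orderTop {x : HahnSeries Γ K} {g : Γ} (h : x.orderTop = g) :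
    x.leadingCoeff = x.coeff g := by
  simp [HahnSeries.leadingCoeff, h]

theorem coeff_mul_of_le {x y : HahnSeries Γ K} {a b : Γ} (hx : (a : WithTop Γ) ≤ x.orderTop)
    (hy : (b : WithTop Γ) ≤ y.orderTop) : (x * y).coeff (a + b) = x.coeff a * y.coeff b := by
  rcases hx.lt_or_eq with hx1 | hx1
  · rw [HahnSeries.coeff_eq_zero_of_lt_orderTop hx1, zero_mul]
    apply HahnSeries.coeff_eq_zero_of_lt_orderTop
    rw [HahnSeries.orderTop_mul, WithTop.coe_add]
    exact WithTop.add_lt_add_of_lt_of_le WithTop.coe_ne_top hx1 hy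
  rcases hy.lt_or_eq with hy1 | hy1
  · rw [HahnSeries.coeff_eq_zero_of_lt_orderTop hy1, mul_zero]
    apply HahnSeries.coeff_eq_zero_of_lt_orderTop
    rw [HahnSeries.orderTop_mul, WithTop.coe_add]
    exact WithTop.add_lt_add_of_le_of_lt WithTop.coe_ne_top hx hy1
  have h : (x * y).orderTop = ((a + b : Γ) : WithTop Γ) := by
    rw [HahnSeries.orderTop_mul, ← hx1, ← hy1, WithTop.coe_add]
  rw [← leadingCoeff_of_orderTop h, HahnSeries.leadingCoeff_mul,
    leadingCoeff_of_orderTop hx1.symm, leadingCoeff_of_orderTop hy1.symm]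

/-- The residue map of the valuation ring: the coefficient of index zero. -/
noncomputable def res : O Γ K →+* K where
  toFun x := (x : HahnSeries Γ K).coeff 0
  map_one' := by simp
  map_mul' x y := by
    have := coeff_mul_of_le (a := 0) (b := 0) x.2 y.2
    simpa using this
  map_zero' := by simp
  map_add' x y := by simp

theorem res_apply (x : O Γ K) : res x = (x : HahnSeries Γ K).coeff 0 := rfl

theorem res_eq_zero_iff (x : O Γ K) : res x = 0 ↔ 0 < (x : HahnSeries Γ K).orderTop :=
  coeff_zero_eq_zero_iff x.2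

theorem res_ne_zero_iff (x : O Γ K) : res x ≠ 0 ↔ (x : HahnSeries Γ K).orderTop = 0 := by
  rw [Ne, res_eq_zero_iff, not_lt]
  exact ⟨fun h => le_antisymm h x.2, fun h => h.le⟩

theorem orderTop_inv {x : HahnSeries Γ K} {g : Γ} (h : x.orderTop = g) :
    x⁻¹.orderTop = ((-g : Γ) : WithTop Γ) := by
  have hx : x ≠ 0 := by
    rintro rfl
    simp at h
  have hi : x⁻¹ ≠ 0 := inv_ne_zero hx
  have h1 : (x * x⁻¹).orderTop = 0 := by rw [mul_inv_cancel₀ hx]; simp
  rw [HahnSeries.orderTop_mul, h, ← HahnSeries.order_eq_orderTop_of_ne_zero hi,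
    ← WithTop.coe_add] at h1
  rw [← HahnSeries.order_eq_orderTop_of_ne_zero hi, WithTop.coe_eq_coe]
  have h2 : g + x⁻¹.order = 0 := by exact_mod_cast h1
  exact (neg_eq_of_add_eq_zero_right h2).symm

theorem isUnit_O_iff (x : O Γ K) : IsUnit x ↔ res x ≠ 0 := by
  refine ⟨fun h => (h.map res).ne_zero, fun h => ?_⟩
  have hd := (res_ne_zero_iff _).mp h
  have hd0 : (x : HahnSeries Γ K) ≠ 0 := by
    intro h
    rw [h] at hd
    simp at hd
  have hdi : ((x : HahnSeries Γ K)⁻¹).orderTop = 0 := by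
    have := orderTop_inv (g := 0) hd
    simpa using this
  exact IsUnit.of_mul_eq_one ⟨(x : HahnSeries Γ K)⁻¹, hdi.ge⟩ (Subtype.ext (mul_inv_cancel₀ hd0))

instance : IsLocalRing (O Γ K) :=
  IsLocalRing.of_isUnit_or_isUnit_one_sub_self fun a => by
    rw [isUnit_O_iff, isUnit_O_iff, map_sub, map_one]
    by_cases h : res a = 0
    · right; simp [h]
    · left; exact h

/-- Constants lie in the valuation ring. -/
noncomputable def cO : K →+* O Γ K :=
  (HahnSeries.C : K →+* HahnSeries Γ K).codRestrict (O Γ K) fun c => by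
    rw [mem_O, HahnSeries.C_apply]
    exact HahnSeries.orderTop_single_le

theorem res_cO (c : K) : res (cO c : O Γ K) = c := by
  simp [res_apply, cO]

theorem coe_cO (c : K) : ((cO c : O Γ K) : HahnSeries Γ K) = HahnSeries.C c := rfl

theorem exists_lift (p : (HahnSeries Γ K)[X]) (hp : ∀ j, 0 ≤ (p.coeff j).orderTop) :
    ∃ q : (O Γ K)[X], q.map (O Γ K).subtype = p := by
  rw [← Polynomial.mem_lifts, Polynomial.lifts_iff_coeff_lifts]
  exact fun j => ⟨⟨p.coeff j, hp j⟩, rfl⟩

/-- The valuation extends to every field extension. -/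
theorem exists_ext {L : Type*} [Field L] (ι : HahnSeries Γ K →+* L) :
    ∃ A : ValuationSubring L, ∀ x y : HahnSeries Γ K,
      A.valuation (ι x) ≤ A.valuation (ι y) ↔ y.orderTop ≤ x.orderTop := by
  obtain ⟨A, hA, hloc⟩ := IsLocalRing.exists_factor_valuationRing (ι.comp (O Γ K).subtype)
  have h1 : ∀ x : HahnSeries Γ K, 0 ≤ x.orderTop → A.valuation (ι x) ≤ 1 := fun x hx =>
    (A.valuation_le_one_iff _).mpr (hA ⟨x, hx⟩)
  have h2 : ∀ x : HahnSeries Γ K, 0 < x.orderTop → A.valuation (ι x) < 1 := by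
    intro x hx
    have hn : ¬ IsUnit (⟨x, hx.le⟩ : O Γ K) := by
      rw [isUnit_O_iff, not_not, res_eq_zero_iff]
      exact hx
    have hn2 : ¬ IsUnit (⟨ι x, hA ⟨x, hx.le⟩⟩ : A) := fun h => hn (hloc.1 _ h)
    exact (A.valuation_lt_one_iff ⟨ι x, hA ⟨x, hx.le⟩⟩).mp hn2
  have key : ∀ x y : HahnSeries Γ K, y ≠ 0 → x = (x * y⁻¹) * y := fun x y hy => by
    rw [inv_mul_cancel_right₀ hy]
  have hle : ∀ x y : HahnSeries Γ K, y.orderTop ≤ x.orderTop →
      A.valuation (ι x) ≤ A.valuation (ι y) := by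
    intro x y h
    by_cases hy : y = 0
    · subst hy
      have : x = 0 := by simpa using h
      rw [this]
    have e := key x y hy
    have h0 : 0 ≤ (x * y⁻¹).orderTop := by
      have e2 := congrArg HahnSeries.orderTop e
      rw [HahnSeries.orderTop_mul] at e2
      rw [e2] at h
      by_contra hc
      push Not at hc
      have := WithTop.add_lt_add_right (HahnSeries.orderTop_ne_top.mpr hy) hc
      rw [zero_add] at this
      exact absurd h (not_le.mpr this)
    conv_lhs => rw [e, map_mul, map_mul]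
    exact mul_le_of_le_one_left' (h1 _ h0)
  refine ⟨A, fun x y => ⟨fun h => ?_, hle x y⟩⟩
  by_contra hc
  push Not at hc
  have hx : x ≠ 0 := by
    rintro rfl
    simp at hc
  have e := key y x hx
  have h0 : 0 < (y * x⁻¹).orderTop := by
    have e2 := congrArg HahnSeries.orderTop e
    rw [HahnSeries.orderTop_mul] at e2
    rw [e2] at hc
    by_contra hd
    push Not at hd
    have := add_le_add_left hd x.orderTop
    rw [zero_add] at this
    exact absurd hc (not_lt.mpr this)
  have hx' : A.valuation (ι x) ≠ 0 := by simpa using hx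
  have : A.valuation (ι y) < A.valuation (ι x) := by
    conv_lhs => rw [e, map_mul, map_mul]
    exact mul_lt_of_lt_one_left (zero_lt_iff.mpr hx') (h2 _ h0)
  exact absurd h (not_le.mpr this)

theorem exists_two_terms {L Λ : Type*} [Field L] [LinearOrderedCommGroupWithZero Λ]
    (w : Valuation L Λ) {ι : Type*} (s : Finset ι) (f : ι → L) (hs : s.Nonempty)
    (hf : ∀ i ∈ s, f i ≠ 0) (h : ∑ i ∈ s, f i = 0) :
    ∃ i ∈ s, ∃ j ∈ s, i ≠ j ∧ w (f i) = w (f j) := by
  classical
  obtain ⟨j, hj, hmax⟩ := s.exists_max_image (fun i => w (f i)) hs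
  by_contra hne
  push Not at hne
  have := w.map_sum_eq_of_lt hj (f := f) fun i hi => by
    rw [Finset.mem_sdiff, Finset.mem_singleton] at hi
    exact lt_of_le_of_ne (hmax i hi.1) (hne i hi.1 j hj hi.2)
  rw [h, map_zero] at this
  exact hf j hj (by simpa using this.symm)


variable [Module ℚ Γ]

theorem exists_approx [IsAlgClosed K] {L : Type*} [Field L] [Algebra (HahnSeries Γ K) L]
    [Algebra.IsAlgebraic (HahnSeries Γ K) L] (A : ValuationSubring L)
    (hA : ∀ x y : HahnSeries Γ K, A.valuation (algebraMap _ L x) ≤ A.valuation (algebraMap _ L y) ↔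
      y.orderTop ≤ x.orderTop) (z : L) (hz : z ≠ 0) :
    ∃ m : HahnSeries Γ K, A.valuation (z - algebraMap _ L m) < A.valuation z := by
  classical
  set w := A.valuation with hw
  set ι := algebraMap (HahnSeries Γ K) L with hι
  have heq : ∀ x y : HahnSeries Γ K, x.orderTop = y.orderTop → w (ι x) = w (ι y) := fun x y h =>
    le_antisymm ((hA x y).mpr h.ge) ((hA y x).mpr h.le)
  have hlt : ∀ x : HahnSeries Γ K, 0 < x.orderTop → w (ι x) < 1 := fun x hx => by
    have := (hA 1 x).not.mpr (by simpa using hx)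
    simpa using this
  -- the value of `z` is the value of a monomial
  have step1 : ∃ s : Γ, w z = w (ι (HahnSeries.single s 1)) := by
    obtain ⟨p, hp0, hp⟩ := Algebra.IsAlgebraic.isAlgebraic (R := HahnSeries Γ K) z
    rw [Polynomial.aeval_def, Polynomial.eval₂_eq_sum, Polynomial.sum_def] at hp
    have hnz : ∀ i ∈ p.support, ι (p.coeff i) * z ^ i ≠ 0 := fun i hi =>
      mul_ne_zero (by simpa using Polynomial.mem_support_iff.mp hi) (pow_ne_zero _ hz)
    have main : ∀ i ∈ p.support, ∀ j ∈ p.support, i < j →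
        w (ι (p.coeff i) * z ^ i) = w (ι (p.coeff j) * z ^ j) →
        ∃ s : Γ, w z = w (ι (HahnSeries.single s 1)) := by
      intro i hi j hj hij h
      obtain ⟨n, rfl⟩ := Nat.exists_eq_add_of_lt hij
      have hi' := Polynomial.mem_support_iff.mp hi
      have hj' := Polynomial.mem_support_iff.mp hj
      set g : Γ := (p.coeff i).order - (p.coeff (i + n + 1)).order with hg
      refine ⟨((n + 1 : ℕ) : ℚ)⁻¹ • g, ?_⟩
      have e1 : w (ι (p.coeff i)) = w (ι (p.coeff (i + n + 1))) *
          w (ι (HahnSeries.single (((n + 1 : ℕ) : ℚ)⁻¹ • g) 1)) ^ (n + 1) := by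
        rw [← map_pow, ← map_pow, ← map_mul, ← map_mul]
        apply heq
        rw [HahnSeries.single_pow, HahnSeries.orderTop_mul, HahnSeries.orderTop_single (by simp),
          ← HahnSeries.order_eq_orderTop_of_ne_zero hi',
          ← HahnSeries.order_eq_orderTop_of_ne_zero hj', ← WithTop.coe_add, WithTop.coe_eq_coe,
          ← Nat.cast_smul_eq_nsmul ℚ, smul_inv_smul₀ (by positivity), hg]
        abel
      rw [map_mul, map_mul, e1, add_assoc, pow_add z, map_mul, mul_assoc] at h
      have h1 : w (ι (p.coeff (i + (n + 1)))) ≠ 0 := by simpa [add_assoc] using hj'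
      have h2 := mul_left_cancel₀ h1 h
      rw [mul_comm] at h2
      have h3 : w (z ^ i) ≠ 0 := by simpa using fun h => absurd h hz
      have h4 := mul_left_cancel₀ h3 h2
      rw [map_pow] at h4
      exact (pow_left_injective (Nat.succ_ne_zero n) h4).symm
    obtain ⟨i, hi, j, hj, hij, h⟩ := exists_two_terms w p.support _
      (Polynomial.support_nonempty.mpr hp0) hnz hp
    rcases lt_or_gt_of_ne hij with h1 | h1
    · exact main i hi j hj h1 h
    · exact main j hj i hi h1 h.symm
  obtain ⟨s, hs⟩ := step1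
  have hm0 : ι (HahnSeries.single s 1) ≠ 0 := by simp
  set u := z / ι (HahnSeries.single s 1) with hu
  have hwu : w u = 1 := by
    rw [hu, map_div₀, hs, div_self (by simpa using hm0)]
  -- the residue of `u` is a constant
  have step2 : ∃ c : K, w (u - ι (HahnSeries.C c)) < 1 := by
    obtain ⟨p, hp0, hp⟩ := Algebra.IsAlgebraic.isAlgebraic (R := HahnSeries Γ K) u
    obtain ⟨j, hj, hmin⟩ := p.support.exists_min_image (fun i => (p.coeff i).orderTop)
      (Polynomial.support_nonempty.mpr hp0)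
    have hj' := Polynomial.mem_support_iff.mp hj
    set p1 := Polynomial.C (p.coeff j)⁻¹ * p with hp1
    have hc : ∀ i, 0 ≤ (p1.coeff i).orderTop := by
      intro i
      rw [hp1, Polynomial.coeff_C_mul]
      by_cases hi : i ∈ p.support
      · have h1 := hmin i hi
        have hi' := Polynomial.mem_support_iff.mp hi
        rw [HahnSeries.orderTop_mul,
          orderTop_inv (HahnSeries.order_eq_orderTop_of_ne_zero hj').symm]
        simp only [← HahnSeries.order_eq_orderTop_of_ne_zero hi',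
          ← HahnSeries.order_eq_orderTop_of_ne_zero hj', WithTop.coe_le_coe] at h1
        rw [← HahnSeries.order_eq_orderTop_of_ne_zero hi', ← WithTop.coe_add, ← WithTop.coe_zero,
          WithTop.coe_le_coe]
        rwa [neg_add_eq_sub, sub_nonneg]
      · rw [Polynomial.notMem_support_iff.mp hi]; simp
    obtain ⟨q, hq⟩ := exists_lift p1 hc
    have hqj : res (q.coeff j) = 1 := by
      have : ((q.coeff j : O Γ K) : HahnSeries Γ K) = 1 := by
        have := congrArg (fun r => Polynomial.coeff r j) hq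
        simp only [Polynomial.coeff_map, hp1, Polynomial.coeff_C_mul, inv_mul_cancel₀ hj'] at this
        exact this
      rw [res_apply, this]; simp
    set qb : K[X] := q.map res with hqb
    have hqb0 : qb ≠ 0 := by
      intro h
      have := congrArg (fun r => Polynomial.coeff r j) h
      simp [hqb, hqj] at this
    let κ : K →+* L := ι.comp HahnSeries.C
    have hsmall : w (qb.eval₂ κ u) < 1 := by
      have e1 : qb.eval₂ κ u = - ((q - qb.map cO).eval₂ (ι.comp (O Γ K).subtype) u) := by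
        rw [Polynomial.eval₂_sub, Polynomial.eval₂_map (p := qb),
          ← Polynomial.eval₂_map (f := (O Γ K).subtype),
          hq, hp1, Polynomial.eval₂_mul, ← Polynomial.aeval_def (p := p), hp]
        simp only [mul_zero, zero_sub, neg_neg]
        rfl
      rw [e1, Valuation.map_neg, Polynomial.eval₂_eq_sum, Polynomial.sum_def]
      refine w.map_sum_lt one_ne_zero fun i _ => ?_
      rw [map_mul, map_pow, hwu, one_pow, mul_one]
      apply hlt
      rw [Subring.coe_subtype, ← res_eq_zero_iff]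
      simp [hqb, res_cO]
    by_contra hne
    push Not at hne
    have hsp := (IsAlgClosed.splits qb).eq_prod_roots
    have hone : ∀ c : K, c ≠ 0 → w (κ c) = 1 := fun c hc => by
      have := heq (HahnSeries.C c) 1 (by
        rw [HahnSeries.C_apply, HahnSeries.orderTop_single hc]; simp)
      simpa [κ] using this
    rw [hsp, Polynomial.eval₂_mul, Polynomial.eval₂_C, map_mul,
      hone _ (Polynomial.leadingCoeff_ne_zero.mpr hqb0), one_mul, Polynomial.eval₂_multiset_prod,
      map_multiset_prod] at hsmall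
    refine absurd hsmall (not_lt.mpr (Multiset.one_le_prod_of_one_le fun x hx => ?_))
    simp only [Multiset.map_map, Multiset.mem_map] at hx
    obtain ⟨c, _, rfl⟩ := hx
    simpa [κ] using hne c
  obtain ⟨c, hc⟩ := step2
  refine ⟨HahnSeries.C c * HahnSeries.single s 1, ?_⟩
  have e : z - ι (HahnSeries.C c * HahnSeries.single s 1) =
      (u - ι (HahnSeries.C c)) * ι (HahnSeries.single s 1) := by
    rw [hu, map_mul]
    field_simp
  rw [e, map_mul, hs]
  exact mul_lt_of_lt_one_left (zero_lt_iff.mpr (by simpa using hm0)) hc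

/-- Hahn series with rational exponents over an algebraically closed field. -/
theorem isAlgClosed_hahn [IsAlgClosed K] : IsAlgClosed (HahnSeries Γ K) := by
  let L := AlgebraicClosure (HahnSeries Γ K)
  set ι := algebraMap (HahnSeries Γ K) L with hι
  have hsurj : Function.Surjective ι := by
    intro α
    by_contra hne
    push Not at hne
    obtain ⟨A, hA⟩ := exists_ext ι
    have hz : ∀ a, α - ι a ≠ 0 := fun a h => hne a (sub_eq_zero.mp h).symm
    choose m hm using fun a => exists_approx A hA (α - ι a) (hz a)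
    have hm' : ∀ a, A.valuation (ι (m a)) = A.valuation (α - ι a) := fun a =>
      A.valuation.map_eq_of_sub_lt (by rw [Valuation.map_sub_swap]; exact hm a)
    obtain ⟨x, hx⟩ := sph (fun a : HahnSeries Γ K => a) (fun a => (m a).orderTop) fun a b => by
      have e : ι (a - b) = (α - ι b) - (α - ι a) := by rw [map_sub]; ring
      have h1 := A.valuation.map_sub (α - ι b) (α - ι a)
      rw [← e, ← hm', ← hm', le_max_iff, hA, hA] at h1
      rw [min_le_iff]
      exact h1.symm
    have h2 := hx (x + m x)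
    rw [← hA, hm'] at h2
    have h3 : α - ι (x + m x) = α - ι x - ι (m x) := by rw [map_add]; ring
    have h4 : x - (x + m x) = - m x := by ring
    rw [h3, h4, map_neg, Valuation.map_neg, hm'] at h2
    exact absurd (hm x) (not_lt.mpr h2)
  refine IsAlgClosed.of_exists_root _ fun p _ hp => ?_
  obtain ⟨α, hα⟩ := IsAlgClosed.exists_aeval_eq_zero L p (Polynomial.degree_pos_of_irreducible hp).ne'
  obtain ⟨a, rfl⟩ := hsurj α
  refine ⟨a, ?_⟩
  rw [Polynomial.aeval_algebraMap_apply, map_eq_zero] at hα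
  simpa using hα

instance [CharZero K] : CharZero (HahnSeries Γ K) :=
  charZero_of_injective_ringHom (f := (HahnSeries.C : K →+* HahnSeries Γ K)) HahnSeries.C_injective

/-- The character `exp (2 π i q)`. -/
noncomputable def ex (q : ℚ) : ℂ := Complex.exp (2 * Real.pi * Complex.I * q)

theorem ex_add (p q : ℚ) : ex (p + q) = ex p * ex q := by
  rw [ex, ex, ex, ← Complex.exp_add]; push_cast; ring_nf

theorem ex_int (n : ℤ) : ex n = 1 := by
  rw [ex, mul_comm]; exact_mod_cast Complex.exp_int_mul_two_pi_mul_I n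

theorem ex_zero : ex 0 = 1 := by simpa using ex_int 0

theorem ex_half : ex (1 / 2) = -1 := by
  rw [ex, ← Complex.exp_pi_mul_I]; push_cast; ring_nf

theorem ex_prim (n : ℕ) : IsPrimitiveRoot (ex (1 / (n + 1 : ℕ))) (n + 1) := by
  convert Complex.isPrimitiveRoot_exp (n + 1) n.succ_ne_zero using 1
  rw [ex]; push_cast; ring_nf

omit [Module ℚ Γ]

/-- The automorphism attached to a character. -/
noncomputable def tw (l : Γ →+ ℚ) : HahnSeries Γ ℂ →+* HahnSeries Γ ℂ where
  toFun z := ⟨fun g => ex (l g) * z.coeff g, z.isPWO_support.mono fun g hg h => hg (by simp [h])⟩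
  map_zero' := by ext; simp
  map_add' x y := by ext; simp [mul_add]
  map_one' := by
    ext g
    by_cases h : g = 0 <;> simp [h, ex_zero]
  map_mul' x y := by
    ext g
    rw [HahnSeries.coeff_mul_left' x.isPWO_support fun g hg h => hg (by simp [h])]
    have : ∀ z : HahnSeries Γ ℂ, (⟨fun g => ex (l g) * z.coeff g, z.isPWO_support.mono
      fun g hg h => hg (by simp [h])⟩ : HahnSeries Γ ℂ).support = z.support := fun z => by
      ext g
      simp [ex]
    simp only [this, HahnSeries.coeff_mul, Finset.mul_sum]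
    refine Finset.sum_congr rfl fun p hp => ?_
    rw [← (Finset.mem_antidiagonal.1 hp).2.2, map_add, ex_add]
    ring

theorem tw_coeff (l : Γ →+ ℚ) (z : HahnSeries Γ ℂ) (g : Γ) :
    (tw l z).coeff g = ex (l g) * z.coeff g := rfl

theorem tw_tw (l l' : Γ →+ ℚ) (z : HahnSeries Γ ℂ) : tw l (tw l' z) = tw (l + l') z := by
  ext g
  simp [tw_coeff, ex_add, mul_assoc]

theorem tw_zero (z : HahnSeries Γ ℂ) : tw 0 z = z := by
  ext g
  simp [tw_coeff, ex_zero]

theorem tw_single (l : Γ →+ ℚ) {g : Γ} (c : ℂ) (h : ex (l g) = 1) :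
    tw l (HahnSeries.single g c) = HahnSeries.single g c := by
  ext g'
  by_cases e : g' = g <;> simp [tw_coeff, e, h]

/-- The order. -/
def Ord (z : HahnSeries Γ ℂ) (g : Γ) : Prop := z.orderTop = g

omit [AddCommGroup Γ] [IsOrderedAddMonoid Γ] in
theorem Ord.ne {z : HahnSeries Γ ℂ} {g : Γ} (h : Ord z g) : z ≠ 0 := by
  rintro rfl
  simp [Ord] at h

omit [AddCommGroup Γ] [IsOrderedAddMonoid Γ] in
theorem ord_single (g : Γ) : Ord (HahnSeries.single g (1 : ℂ)) g :=
  HahnSeries.orderTop_single one_ne_zero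

omit [IsOrderedAddMonoid Γ] in
theorem ord_order {z : HahnSeries Γ ℂ} (h : z ≠ 0) : Ord z z.order :=
  (HahnSeries.order_eq_orderTop_of_ne_zero h).symm

omit [IsOrderedAddMonoid Γ] in
theorem ord_one : Ord (1 : HahnSeries Γ ℂ) 0 := ord_single 0

omit [IsOrderedAddMonoid Γ] in
theorem ord_nat (n : ℕ) (h : n ≠ 0) : Ord (n : HahnSeries Γ ℂ) 0 :=
  HahnSeries.orderTop_single (r := (n : ℂ)) (Nat.cast_ne_zero.2 h)

theorem Ord.mul {x y : HahnSeries Γ ℂ} {g h : Γ} (hx : Ord x g) (hy : Ord y h) :
    Ord (x * y) (g + h) := by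
  rw [Ord, HahnSeries.orderTop_mul, hx, hy, WithTop.coe_add]

theorem Ord.pow {x : HahnSeries Γ ℂ} {g : Γ} (hx : Ord x g) (n : ℕ) : Ord (x ^ n) (n • g) := by
  induction n with
  | zero => simpa using ord_one
  | succ n ih => rw [pow_succ, succ_nsmul]; exact ih.mul hx

theorem Ord.div {x y : HahnSeries Γ ℂ} {g h : Γ} (hx : Ord x g) (hy : Ord y h) :
    Ord (x / y) (g - h) := by
  rw [div_eq_mul_inv, sub_eq_add_neg]
  exact hx.mul (orderTop_inv hy)

omit [AddCommGroup Γ] [IsOrderedAddMonoid Γ] in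
theorem Ord.uniq {x : HahnSeries Γ ℂ} {g h : Γ} (h1 : Ord x g) (h2 : Ord x h) : g = h :=
  WithTop.coe_injective (h1.symm.trans h2)

theorem Ord.root {x : HahnSeries Γ ℂ} {g : Γ} {n : ℕ} (hn : n ≠ 0) (h : Ord (x ^ n) (n • g)) :
    Ord x g := by
  have h0 : x ≠ 0 := fun e => h.ne (by rw [e, zero_pow hn])
  rw [← nsmul_right_injective hn (((ord_order h0).pow n).uniq h)]
  exact ord_order h0

/-- The action on roots of fixed elements. -/
theorem tw_root (l : Γ →+ ℚ) {z : HahnSeries Γ ℂ} {g : Γ} (n : ℕ) (hz : Ord z g)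
    (h : tw l (z ^ (n + 1)) = z ^ (n + 1)) : tw l z = HahnSeries.C (ex (l g)) * z := by
  obtain ⟨i, -, hi⟩ := ((ex_prim n).map_of_injective
    (HahnSeries.C_injective (Γ := Γ) (R := ℂ))).eq_pow_of_pow_eq_one (ξ := tw l z / z)
    (by rw [div_pow, ← map_pow, h, div_self (pow_ne_zero _ hz.ne)])
  rw [← map_pow, eq_div_iff hz.ne] at hi
  have h2 := congrArg (fun w => HahnSeries.coeff w g) hi
  simp only [HahnSeries.C_mul_eq_smul, HahnSeries.coeff_smul, smul_eq_mul, tw_coeff] at h2
  rw [← mul_right_cancel₀ (HahnSeries.coeff_orderTop_ne hz) h2, hi]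

theorem tw_fix (l : Γ →+ ℚ) {z : HahnSeries Γ ℂ} {g : Γ} (n : ℕ) (hz : Ord z g)
    (h : tw l (z ^ (n + 1)) = z ^ (n + 1)) (hg : ex (l g) = 1) : tw l z = z := by
  rw [tw_root l n hz h, hg, map_one, one_mul]

/-- The fixed field of a one parameter group. -/
noncomputable def FixF (l : Γ →+ ℚ) : Subfield (HahnSeries Γ ℂ) :=
  ⨅ s : ℚ, (tw (s • l)).eqLocusField (RingHom.id _)

theorem mem_fixF {l : Γ →+ ℚ} {z : HahnSeries Γ ℂ} : z ∈ FixF l ↔ ∀ s : ℚ, tw (s • l) z = z :=
  Subfield.mem_iInf

theorem fixF_tw {l : Γ →+ ℚ} {z : HahnSeries Γ ℂ} (h : z ∈ FixF l) : tw l z = z := by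
  simpa using mem_fixF.1 h 1

theorem single_mem {l : Γ →+ ℚ} {g : Γ} (c : ℂ) (h : l g = 0) : HahnSeries.single g c ∈ FixF l :=
  mem_fixF.2 fun s => tw_single _ _ (by simp [h, ex_zero])

/-- The fixed field is algebraically closed in the field of Hahn series. -/
theorem coeff_of_root {l : Γ →+ ℚ} {p : (HahnSeries Γ ℂ)[X]} (hp : p ≠ 0)
    (hc : ∀ i, p.coeff i ∈ FixF l) {z : HahnSeries Γ ℂ} (hz : p.eval z = 0) {g : Γ}
    (hg : z.coeff g ≠ 0) : l g = 0 := by
  classical
  by_contra h0
  have h1 : ∀ s : ℚ, tw (s • l) z ∈ p.roots.toFinset := by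
    intro s
    have e : p.map (tw (s • l)) = p := by
      ext1 i
      rw [coeff_map, mem_fixF.1 (hc i)]
    rw [Multiset.mem_toFinset, mem_roots hp, IsRoot, ← e, eval_map_apply, hz, map_zero]
  obtain ⟨m, n, hmn, e⟩ := Finite.exists_ne_map_eq_of_infinite fun n : ℕ =>
    (⟨_, h1 (1 / (n + 1 : ℕ) / l g)⟩ : p.roots.toFinset)
  have e2 := congrArg (fun w => HahnSeries.coeff w.1 g) e
  simp only [tw_coeff, AddMonoidHom.smul_apply, smul_eq_mul, div_mul_cancel₀ _ h0] at e2
  have e3 := ex_prim m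
  rw [mul_right_cancel₀ hg e2] at e3
  exact hmn (Nat.succ_injective (e3.unique (ex_prim n)))

theorem mem_of_alg {l : Γ →+ ℚ} {S : Type*} [Field S] (f : S →+* HahnSeries Γ ℂ)
    (hf : ∀ c, f c ∈ FixF l) {p : S[X]} (hp : p ≠ 0) {z : HahnSeries Γ ℂ}
    (hz : p.eval₂ f z = 0) : z ∈ FixF l := by
  refine mem_fixF.2 fun s => ?_
  ext g
  by_cases hg : z.coeff g = 0
  · simp [tw_coeff, hg]
  · have := coeff_of_root (l := l) (p := p.map f) (by simpa using hp)
      (fun i => by rw [coeff_map]; exact hf _) (by rwa [eval_map]) hg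
    simp [tw_coeff, this, ex_zero]

theorem Ord.fix {l : Γ →+ ℚ} {z : HahnSeries Γ ℂ} {g : Γ} (h : Ord z g) (hz : z ∈ FixF l) :
    l g = 0 :=
  coeff_of_root (p := X - C z) (X_sub_C_ne_zero z) (fun i => by
    rw [coeff_sub, coeff_X, coeff_C]
    refine sub_mem ?_ ?_ <;> split_ifs
    exacts [one_mem _, zero_mem _, hz, zero_mem _]) (by simp) (HahnSeries.coeff_orderTop_ne h)

theorem root_mem {l : Γ →+ ℚ} {z : HahnSeries Γ ℂ} {n : ℕ} (hn : n ≠ 0) (h : z ^ n ∈ FixF l) :
    z ∈ FixF l :=
  mem_of_alg (FixF l).subtype (fun c => c.2) (p := X ^ n - C ⟨_, h⟩)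
    (X_pow_sub_C_ne_zero (Nat.pos_of_ne_zero hn) _) (by simp)

theorem two_terms {ι : Type} (s : Finset ι) (f : ι → HahnSeries Γ ℂ) (g : ι → Γ) (hs : s.Nonempty)
    (hf : ∀ i ∈ s, Ord (f i) (g i)) (h : ∑ i ∈ s, f i = 0) : ∃ i ∈ s, ∃ j ∈ s, i ≠ j ∧ g i = g j := by
  obtain ⟨i, hi, j, hj, hij, e⟩ := exists_two_terms
    (AddValuation.toValuation (HahnSeries.addVal Γ ℂ)) s f hs (fun i hi => (hf i hi).ne) h
  have e2 : (f i).orderTop = (f j).orderTop := e
  exact ⟨i, hi, j, hj, hij, WithTop.coe_injective ((hf i hi).symm.trans (e2.trans (hf j hj)))⟩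

section Lv

variable (φ : Γ →+ ℚ)

/-- The filtration by the first coordinate. -/
def Lv (q : ℚ) (z : HahnSeries Γ ℂ) : Prop := ∀ g ∈ z.support, q ≤ φ g

variable {φ}

theorem Lv.mul {p q : ℚ} {x y : HahnSeries Γ ℂ} (hx : Lv φ p x) (hy : Lv φ q y) :
    Lv φ (p + q) (x * y) := fun g hg => by
  obtain ⟨a, ha, b, hb, rfl⟩ := HahnSeries.support_mul_subset hg
  rw [map_add]
  exact add_le_add (hx a ha) (hy b hb)

omit [IsOrderedAddMonoid Γ] in
theorem Lv.add {p : ℚ} {x y : HahnSeries Γ ℂ} (hx : Lv φ p x) (hy : Lv φ p y) :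
    Lv φ p (x + y) := fun g hg => (HahnSeries.support_add_subset _ _ hg).elim (hx g) (hy g)

omit [IsOrderedAddMonoid Γ] in
theorem Lv.neg {p : ℚ} {x : HahnSeries Γ ℂ} (hx : Lv φ p x) : Lv φ p (-x) := fun g hg =>
  hx g (by simpa using hg)

omit [IsOrderedAddMonoid Γ] in
theorem Lv.mono {p q : ℚ} {x : HahnSeries Γ ℂ} (hx : Lv φ p x) (h : q ≤ p) : Lv φ q x :=
  fun g hg => h.trans (hx g hg)

omit [IsOrderedAddMonoid Γ] in
theorem Ord.lv (hφ : Monotone φ) {x : HahnSeries Γ ℂ} {g : Γ} (hx : Ord x g) {q : ℚ}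
    (h : q ≤ φ g) : Lv φ q x := fun _ hg => h.trans (hφ (WithTop.coe_le_coe.1
      (hx.symm.trans_le (HahnSeries.orderTop_le_of_coeff_ne_zero hg))))

omit [IsOrderedAddMonoid Γ] in
theorem Ord.add (hφ : Monotone φ) {x y : HahnSeries Γ ℂ} {g : Γ} (hx : Ord x g) {q : ℚ}
    (hy : Lv φ q y) (h : φ g < q) : Ord (x + y) g := by
  refine (HahnSeries.orderTop_add_eq_left ?_).trans hx
  by_cases h0 : y = 0
  · rw [h0, hx]; simp
  · rw [hx, ord_order h0, WithTop.coe_lt_coe]
    exact hφ.reflect_lt (h.trans_le (hy _ (HahnSeries.coeff_orderTop_ne (ord_order h0))))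

omit [IsOrderedAddMonoid Γ] in
theorem Ord.sub (hφ : Monotone φ) {x y : HahnSeries Γ ℂ} {g : Γ} (hx : Ord x g) {q : ℚ}
    (hy : Lv φ q y) (h : φ g < q) : Ord (x - y) g := by
  rw [sub_eq_add_neg]; exact hx.add hφ hy.neg h

/-- The coarse valuation ring. -/
def Bd (hφ : Monotone φ) : Subring (HahnSeries Γ ℂ) where
  carrier := {z | Lv φ 0 z}
  mul_mem' hx hy := by simpa using Lv.mul hx hy
  add_mem' := Lv.add
  neg_mem' := Lv.neg
  one_mem' := ord_one.lv hφ (by simp)
  zero_mem' := fun g hg => by simp at hg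

theorem Lv.bd {hφ : Monotone φ} {p : ℚ} {x y : HahnSeries Γ ℂ} (hx : Lv φ p x) (hy : y ∈ Bd hφ) :
    Lv φ p (x * y) := by simpa using hx.mul hy

end Lv

end Pool.Agent.MP_5fa3de_ag.Hahn
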