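import Mathlib.LinearAlgebra.FreeModule.PID
import Mathlib.Algebra.Algebra.Hom.Rat
import Mathlib.Topology.Sheaves.Presheaf
import Mathlib.Algebra.Lie.OfAssociative
import Mathlib.LinearAlgebra.Matrix.Hermitian
import Mathlib.Analysis.Complex.Polynomial.Basic
import Mathlib.Data.Rat.Star
import Mathlib.FieldTheory.IsAlgClosed.Classification
import Mathlib.RingTheory.PiTensorProduct
import Mathlib.RingTheory.MvPolynomial.IrreducibleQuadratic
import Pool.Agent.MP_5fa3de_ag.Stmt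
import Pool.Agent.MP_5fa3de_ag.Hahn

-- ======== part 0: formerly Pool.Agent.MP_5fa3de_ag.Defs
section MrgPart0

/-! Galois cohomology in degree three, unramified classes, function fields of hypersurfaces. -/

namespace Pool.Agent.MP_5fa3de_ag

section Coh

variable (G G' : Type) [Group G] [TopologicalSpace G] [Group G'] [TopologicalSpace G']

/-- Locally constant inhomogeneous 3-cocycles. -/
def Z3 : AddSubgroup (G × G × G → QZ) where
  carrier := Cocyc G
  zero_mem' := ⟨IsLocallyConstant.const 0, by simp⟩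
  add_mem' := fun {a b} ha hb => ⟨ha.1.add hb.1, fun g h k l => by
    have h1 := ha.2 g h k l
    have h2 := hb.2 g h k l
    simp only [Pi.add_apply]
    rw [← add_zero (0 : QZ)]
    nth_rewrite 1 [← h1]
    rw [← h2]
    abel⟩
  neg_mem' := fun {a} ha => ⟨ha.1.neg, fun g h k l => by
    have h1 := ha.2 g h k l
    simp only [Pi.neg_apply]
    rw [← neg_zero, ← h1]
    abel⟩

/-- Coboundaries of locally constant inhomogeneous 2-cochains. -/
def B3 : AddSubgroup (G × G × G → QZ) where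
  carrier := Cobd G
  zero_mem' := ⟨0, IsLocallyConstant.const 0, by simp⟩
  add_mem' := by
    rintro a b ⟨a', h1, h2⟩ ⟨b', h3, h4⟩
    refine ⟨a' + b', h1.add h3, fun g h k => ?_⟩
    simp only [Pi.add_apply, h2, h4]
    abel
  neg_mem' := by
    rintro a ⟨a', h1, h2⟩
    refine ⟨-a', h1.neg, fun g h k => ?_⟩
    simp only [Pi.neg_apply, h2]
    abel

/-- The continuous cohomology group `H³(G, ℚ/ℤ)`. -/
abbrev H3 : Type := Z3 G ⧸ (B3 G).addSubgroupOf (Z3 G)

variable {G G'}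

/-- The pull back of cocycles along a continuous homomorphism. -/
def Z3.pull (f : G →* G') (hf : Continuous f) : Z3 G' →+ Z3 G where
  toFun c := ⟨fun p => c.1 (f p.1, f p.2.1, f p.2.2),
    c.2.1.comp_continuous (f := fun p : G × G × G => (f p.1, f p.2.1, f p.2.2)) (by fun_prop),
    fun g h k l => by simpa using c.2.2 (f g) (f h) (f k) (f l)⟩
  map_zero' := rfl
  map_add' _ _ := rfl

/-- The map induced on `H³` by a continuous homomorphism. -/
def H3.pull (f : G →* G') (hf : Continuous f) : H3 G' →+ H3 G :=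
  QuotientAddGroup.map _ _ (Z3.pull f hf) (by
    rintro c ⟨b, h1, h2⟩
    exact ⟨fun p => b (f p.1, f p.2),
      h1.comp_continuous (f := fun p : G × G => (f p.1, f p.2)) (by fun_prop),
      fun g h k => by simp only [map_mul]; exact h2 (f g) (f h) (f k)⟩)

theorem mem_range_pull (f : G →* G') (hf : Continuous f) (c : Z3 G) :
    (QuotientAddGroup.mk c : H3 G) ∈ (H3.pull f hf).range ↔ ComesFrom f c.1 := by
  constructor
  · rintro ⟨⟨c'⟩, h⟩
    refine ⟨c'.1, c'.2, ?_⟩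
    have h2 := QuotientAddGroup.eq.1 (show (QuotientAddGroup.mk (Z3.pull f hf c') : H3 G) = _ from h)
    rw [neg_add_eq_sub] at h2
    exact h2
  · rintro ⟨c', h1, h2⟩
    refine ⟨QuotientAddGroup.mk ⟨c', h1⟩, QuotientAddGroup.eq.2 ?_⟩
    rw [neg_add_eq_sub]
    exact h2

end Coh

section Gal

variable (K E : Type) [Field K] [Field E] [Algebra K E]

theorem emb_res (g : Gal E) (z : AlgebraicClosure K) : emb K E (res K E g z) = g (emb K E z) :=
  letI := (emb K E).toAlgebra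
  haveI : IsScalarTower K (AlgebraicClosure K) (AlgebraicClosure E) :=
    IsScalarTower.of_algebraMap_eq fun x => ((emb K E).commutes x).symm
  AlgEquiv.restrictNormal_commutes (g.restrictScalars K) (AlgebraicClosure K) z

theorem res_continuous : Continuous (res K E) := by
  refine continuous_of_continuousAt_one _ ?_
  rw [ContinuousAt, map_one, Filter.tendsto_def]
  intro s hs
  obtain ⟨F, hF, h⟩ := (krullTopology_mem_nhds_one_iff _ _ s).1 hs
  let b := Module.finBasis K F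
  have h1 : (⋂ i, (MulAction.stabilizer (Gal E) (emb K E (b i)) : Set (Gal E))) ∈ nhds 1 :=
    Filter.iInter_mem.2 fun i => (stabilizer_isOpen_of_isIntegral _).mem_nhds (one_mem _)
  refine Filter.mem_of_superset h1 fun g hg => h ?_
  rw [SetLike.mem_coe, IntermediateField.mem_fixingSubgroup_iff]
  intro x hx
  have h2 : ((res K E g).toLinearMap.comp F.val.toLinearMap) = F.val.toLinearMap :=
    b.ext fun i => (emb K E).injective ((emb_res K E g _).trans (Set.mem_iInter.1 hg i))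
  exact LinearMap.congr_fun h2 ⟨x, hx⟩

/-- The map `H³(K) → H³(E)`. -/
noncomputable def rho : H3 (Gal K) →+ H3 (Gal E) := H3.pull (res K E) (res_continuous K E)

/-- The classes whose restriction to the decomposition group `D` of `A` is inflated from `D / I`,
`I` the inertia group; `D / I` is the absolute Galois group of the residue field. -/
noncomputable def UnrAt (A : ValuationSubring (AlgebraicClosure E)) : AddSubgroup (H3 (Gal E)) :=
  (H3.pull (QuotientGroup.mk' (A.inertiaSubgroup E)) QuotientGroup.continuous_mk).range.comap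
    (H3.pull (A.decompositionSubgroup E).subtype continuous_subtype_val)

/-- The unramified cohomology group `H³_nr(E / K)`. -/
noncomputable def H3nr : AddSubgroup (H3 (Gal E)) := ⨅ (A) (_ : Over K E A), UnrAt E A

theorem notOnto (h : (rho K E).range < H3nr K E) : NotOnto K E := by
  have h1 : ∀ c : Z3 (Gal E), (QuotientAddGroup.mk c : H3 _) ∈ (rho K E).range ↔
      c.1 ∈ Const K E := fun c => (mem_range_pull _ _ c).trans (and_iff_right c.2).symm
  have h2 : ∀ c : Z3 (Gal E), (QuotientAddGroup.mk c : H3 _) ∈ H3nr K E ↔ c.1 ∈ Unram K E := by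
    intro c
    rw [H3nr, AddSubgroup.mem_iInf]
    refine (forall_congr' fun A => ?_).trans (and_iff_right c.2).symm
    rw [AddSubgroup.mem_iInf]
    exact forall_congr' fun _ => mem_range_pull _ _
      (Z3.pull (A.decompositionSubgroup E).subtype continuous_subtype_val c)
  refine ⟨fun c hc => (h2 ⟨c, hc.1⟩).1 (h.le ((h1 ⟨c, hc.1⟩).2 hc)), fun h3 => h.not_ge ?_⟩
  rintro ⟨c⟩ hc
  exact (h1 c).2 (h3 ((h2 c).1 hc))

end Gal

end Pool.Agent.MP_5fa3de_ag

end MrgPart0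

-- ======== part 1: formerly Pool.Agent.MP_5fa3de_ag.Sym
section MrgPart1

/-! Symbols in degree three and their relations. -/

namespace Pool.Agent.MP_5fa3de_ag

/-- The embedding of `ℤ/2` in `ℚ/ℤ`. -/
noncomputable def half : ZMod 2 →+ QZ :=
  ZMod.lift 2 ⟨zmultiplesHom QZ (((1 / 2 : ℚ) : ℚ) : QZ), by
    change ((2 : ℕ) : ℤ) • (((1 / 2 : ℚ) : ℚ) : QZ) = 0
    rw [← AddCircle.coe_zsmul, AddCircle.coe_eq_zero_iff]
    exact ⟨1, by norm_num⟩⟩

theorem half_one : half 1 ≠ 0 := by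
  have : half ((1 : ℤ) : ZMod 2) = _ := ZMod.lift_coe _ _ _
  rw [Int.cast_one] at this
  rw [this]
  change (1 : ℤ) • (((1 / 2 : ℚ) : ℚ) : QZ) ≠ 0
  rw [one_smul, Ne, AddCircle.coe_eq_zero_iff]
  rintro ⟨n, hn⟩
  rw [zsmul_eq_mul, mul_one] at hn
  have h2 : (2 * n : ℤ) = 1 := by
    have : (2 * n : ℚ) = 1 := by rw [hn]; norm_num
    exact_mod_cast this
  omega

section Grp

variable {G G' : Type} [Group G] [TopologicalSpace G] [Group G'] [TopologicalSpace G']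

/-- Continuous characters of order two. -/
def IsCh (χ : G → ZMod 2) : Prop := IsLocallyConstant χ ∧ ∀ g h, χ (g * h) = χ g + χ h

omit [Group G] in
theorem lc1 {X : Type} {f : G → X} (h : IsLocallyConstant f) :
    IsLocallyConstant fun p : G × G => f p.1 := h.comp_continuous continuous_fst

omit [Group G] in
theorem lc2 {X : Type} {f : G → X} (h : IsLocallyConstant f) :
    IsLocallyConstant fun p : G × G => f p.2 := h.comp_continuous continuous_snd

/-- The cup product of three characters. -/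
noncomputable def cl3 {a b c : G → ZMod 2} (ha : IsCh a) (hb : IsCh b) (hc : IsCh c) : H3 G :=
  QuotientAddGroup.mk ⟨fun p => half (a p.1 * b p.2.1 * c p.2.2),
    (((ha.1.comp_continuous continuous_fst).mul ((lc1 hb.1).comp_continuous continuous_snd)).mul
      ((lc2 hc.1).comp_continuous continuous_snd)).comp half,
    fun g h k l => by
      simp only [← map_sub, ← map_add, ha.2, hb.2, hc.2]
      rw [← map_zero half]
      congr 1
      ring⟩

theorem cl3_eq {a b c a' b' c' : G → ZMod 2} (ha : IsCh a) (hb : IsCh b) (hc : IsCh c)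
    (ha' : IsCh a') (hb' : IsCh b') (hc' : IsCh c') (w : G × G → ZMod 2)
    (hw : IsLocallyConstant w) (h : ∀ g h k, a' g * b' h * c' k - a g * b h * c k =
      w (h, k) - w (g * h, k) + w (g, h * k) - w (g, h)) : cl3 ha hb hc = cl3 ha' hb' hc' := by
  refine QuotientAddGroup.eq.2 ⟨fun p => half (w p), hw.comp half, fun g h' k => ?_⟩
  simp only [← map_sub, ← map_add, ← h]
  change -half _ + half _ = _
  rw [map_sub, neg_add_eq_sub]

theorem isCh_zero : IsCh (fun _ : G => (0 : ZMod 2)) := ⟨IsLocallyConstant.const 0, by simp⟩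

theorem cl3_zero {a b c : G → ZMod 2} (ha : IsCh a) (hb : IsCh b) (hc : IsCh c)
    (h : ∀ g h k, a g * b h * c k = 0) : cl3 ha hb hc = 0 := by
  refine (congrArg QuotientAddGroup.mk (Subtype.ext (funext fun p => ?_))).trans
    (QuotientAddGroup.mk_zero _)
  change half _ = 0
  rw [h, map_zero]

theorem cl3_add {a b b' b'' c : G → ZMod 2} (ha : IsCh a) (hb : IsCh b) (hb' : IsCh b')
    (hb'' : IsCh b'') (hc : IsCh c) (h : ∀ g, b'' g = b g + b' g) :
    cl3 ha hb'' hc = cl3 ha hb hc + cl3 ha hb' hc := by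
  refine (congrArg QuotientAddGroup.mk (Subtype.ext (funext fun p => ?_))).trans
    (QuotientAddGroup.mk_add _ _ _)
  change half _ = half _ + half _
  rw [h, mul_add, add_mul, map_add]

/-- The cup product of two characters vanishes. -/
def R2 (a b : G → ZMod 2) : Prop :=
  ∃ φ : G → ZMod 2, IsLocallyConstant φ ∧ ∀ g h, φ (g * h) = φ g + φ h + a g * b h

theorem R2.symm {a b : G → ZMod 2} (ha : IsCh a) (hb : IsCh b) (h : R2 a b) : R2 b a := by
  obtain ⟨φ, h1, h2⟩ := h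
  refine ⟨fun g => a g * b g - φ g, (ha.1.mul hb.1).sub h1, fun g h => ?_⟩
  simp only [h2, ha.2, hb.2]
  ring

theorem cl3_right {a b c : G → ZMod 2} (ha : IsCh a) (hb : IsCh b) (hc : IsCh c) (h : R2 b c) :
    cl3 ha hb hc = 0 := by
  obtain ⟨φ, h1, h2⟩ := h
  rw [← cl3_zero isCh_zero hb hc (by simp)]
  refine (cl3_eq _ _ _ _ _ _ (fun p => a p.1 * φ p.2) ((lc1 ha.1).mul (lc2 h1))
    fun g h k => ?_).symm
  simp only [h2, ha.2]
  ring

theorem cl3_left {a b c : G → ZMod 2} (ha : IsCh a) (hb : IsCh b) (hc : IsCh c) (h : R2 a b) :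
    cl3 ha hb hc = 0 := by
  obtain ⟨φ, h1, h2⟩ := h
  rw [← cl3_zero isCh_zero hb hc (by simp)]
  refine cl3_eq _ _ _ _ _ _ (fun p => φ p.1 * c p.2) ((lc1 h1).mul (lc2 hc.1)) fun g h k => ?_
  simp only [h2, hc.2]
  ring

theorem cl3_comm {a b c : G → ZMod 2} (ha : IsCh a) (hb : IsCh b) (hc : IsCh c) :
    cl3 ha hb hc = cl3 ha hc hb := by
  refine cl3_eq _ _ _ _ _ _ (fun p => a p.1 * (b p.2 * c p.2))
    ((lc1 ha.1).mul ((lc2 hb.1).mul (lc2 hc.1))) fun g h k => ?_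
  simp only [ha.2, hb.2, hc.2]
  have : (2 : ZMod 2) = 0 := rfl
  linear_combination (-(a g * b h * c k)) * this

theorem IsCh.comp {a : G' → ZMod 2} (ha : IsCh a) (f : G →* G') (hf : Continuous f) :
    IsCh fun g => a (f g) := ⟨ha.1.comp_continuous hf, fun g h => by simp only [map_mul, ha.2]⟩

theorem pull_cl3 {a b c : G' → ZMod 2} (ha : IsCh a) (hb : IsCh b) (hc : IsCh c) (f : G →* G')
    (hf : Continuous f) :
    H3.pull f hf (cl3 ha hb hc) = cl3 (ha.comp f hf) (hb.comp f hf) (hc.comp f hf) := rfl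

theorem cl3_congr {a b c a' b' c' : G → ZMod 2} (ha : IsCh a) (hb : IsCh b) (hc : IsCh c)
    (ha' : IsCh a') (hb' : IsCh b') (hc' : IsCh c') (h1 : a = a') (h2 : b = b') (h3 : c = c') :
    cl3 ha hb hc = cl3 ha' hb' hc' := by
  subst h1 h2 h3
  rfl

/-- A character that is trivial on a normal subgroup comes from the quotient. -/
theorem IsCh.desc [IsTopologicalGroup G] {a : G → ZMod 2} (ha : IsCh a) (N : Subgroup G)
    [N.Normal] (h : ∀ g ∈ N, a g = 0) :
    ∃ a' : G ⧸ N → ZMod 2, IsCh a' ∧ ∀ g : G, a' g = a g := by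
  refine ⟨Quotient.lift a fun g g' e => ?_, ⟨fun s => ?_, ?_⟩, fun _ => rfl⟩
  · have e' := h _ (QuotientGroup.leftRel_apply.1 e)
    have := ha.2 g (g⁻¹ * g')
    rw [mul_inv_cancel_left, e', add_zero] at this
    exact this.symm
  · exact (QuotientGroup.isQuotientMap_mk N).isOpen_preimage.1 (ha.1 s)
  · rintro ⟨g⟩ ⟨g'⟩
    exact ha.2 g g'

/-- The alternating sum over three commuting elements detects classes that are not pulled back. -/
theorem not_pull {a b c : G → ZMod 2} (ha : IsCh a) (hb : IsCh b) (hc : IsCh c) (f : G →* G')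
    (hf : Continuous f) (x y z : G) (xy : x * y = y * x) (xz : x * z = z * x) (yz : y * z = z * y)
    (fy : f y = 1) (fz : f z = 1) (ax : a x = 1) (ay : a y = 0) (az : a z = 0) (by' : b y = 1)
    (bz : b z = 0) (cz : c z = 1) : cl3 ha hb hc ∉ (H3.pull f hf).range := by
  rintro ⟨⟨u⟩, hu⟩
  obtain ⟨w, -, hw⟩ := QuotientAddGroup.eq.1 hu
  have hw' : ∀ g h k, -u.1 (f g, f h, f k) + half (a g * b h * c k) =
      w (h, k) - w (g * h, k) + w (g, h * k) - w (g, h) := hw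
  have h1 := hw' x y z
  have h2 := hw' x z y
  have h3 := hw' y x z
  have h4 := hw' y z x
  have h5 := hw' z x y
  have h6 := hw' z y x
  simp only [fy, fz, ax, ay, az, by', bz, cz, mul_one, mul_zero, zero_mul, map_zero, ← xy, ← xz,
    ← yz] at h1 h2 h3 h4 h5 h6
  refine half_one ?_
  have := congrArg₂ (· - ·) (congrArg₂ (· + ·) (congrArg₂ (· + ·) (congrArg₂ (· - ·)
    (congrArg₂ (· - ·) h1 h2) h3) h4) h5) h6
  refine Eq.trans ?_ (this.trans ?_) <;> abel

end Grp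

section Fld

variable (E : Type) {T : Type} [Field E] [Field T] [Algebra E T]

/-- The sign. -/
def sgn (c : ZMod 2) : T := if c = 0 then 1 else -1

theorem z2 (c : ZMod 2) : c = 0 ∨ c = 1 := by revert c; decide

@[simp] theorem sgn_zero : (sgn 0 : T) = 1 := rfl

@[simp] theorem sgn_one : (sgn 1 : T) = -1 := rfl

theorem sgn_add (c d : ZMod 2) : (sgn (c + d) : T) = sgn c * sgn d := by
  rcases z2 c with rfl | rfl <;> rcases z2 d with rfl | rfl <;> simp [CharTwo.add_self_eq_zero]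

theorem sgn_inj [CharZero T] {c d : ZMod 2} {r : T} (hr : r ≠ 0) (h : sgn c * r = sgn d * r) :
    c = d := by
  have := mul_right_cancel₀ hr h
  rcases z2 c with rfl | rfl <;> rcases z2 d with rfl | rfl <;> first | rfl | norm_num at this

theorem map_sgn (g : T ≃ₐ[E] T) (c : ZMod 2) : g (sgn c) = sgn c := by
  unfold sgn
  split_ifs <;> simp

theorem lc_apply [Algebra.IsIntegral E T] (z : T) : IsLocallyConstant fun g : T ≃ₐ[E] T => g z := by
  rw [IsLocallyConstant.iff_eventually_eq]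
  intro g
  have h := ((stabilizer_isOpen_of_isIntegral (K := E) z).preimage
    (continuous_const_mul g⁻¹)).mem_nhds (x := g) (by simp)
  filter_upwards [h] with g' hg'
  have h2 : g⁻¹ (g' z) = z := hg'
  exact (AlgEquiv.symm_apply_eq g).1 h2

/-- Fixed elements. -/
def Fx (z : T) : Prop := ∀ g : T ≃ₐ[E] T, g z = z

/-- Nonzero fixed elements. -/
def Un (z : T) : Prop := z ≠ 0 ∧ Fx E z

/-- Conjugate elements of the quadratic extension generated by `b`. -/
def Conj (b l l' : T) : Prop := ∀ g : T ≃ₐ[E] T,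
  (g b = b → g l = l ∧ g l' = l') ∧ (g b = -b → g l = l' ∧ g l' = l)

/-- Norms. -/
def Nm (b n : T) : Prop := ∃ l l', Conj E b l l' ∧ n = l * l'

variable {E}

theorem Un.mul {x y : T} (hx : Un E x) (hy : Un E y) : Un E (x * y) :=
  ⟨mul_ne_zero hx.1 hy.1, fun g => by rw [map_mul, hx.2, hy.2]⟩

theorem Un.div {x y : T} (hx : Un E x) (hy : Un E y) : Un E (x / y) :=
  ⟨div_ne_zero hx.1 hy.1, fun g => by rw [map_div₀, hx.2, hy.2]⟩

theorem Un.neg {x : T} (hx : Un E x) : Un E (-x) :=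
  ⟨neg_ne_zero.2 hx.1, fun g => by rw [map_neg, hx.2]⟩

theorem Fx.pm {b : T} (hb : Fx E (b ^ 2)) (g : T ≃ₐ[E] T) : g b = b ∨ g b = -b :=
  sq_eq_sq_iff_eq_or_eq_neg.1 (by rw [← map_pow, hb])

theorem Conj.fx {b l : T} (hb : Fx E (b ^ 2)) (h : Conj E b l l) : Fx E l := fun g =>
  (hb.pm g).elim (fun e => ((h g).1 e).1) fun e => ((h g).2 e).1

theorem Nm.fx {b n : T} (hb : Fx E (b ^ 2)) (h : Nm E b n) : Fx E n := fun g => by
  obtain ⟨l, l', h, rfl⟩ := h
  rcases hb.pm g with e | e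
  · rw [map_mul, ((h g).1 e).1, ((h g).1 e).2]
  · rw [map_mul, ((h g).2 e).1, ((h g).2 e).2, mul_comm]

variable (E) [IsAlgClosed T]

/-- A square root. -/
noncomputable def sq (z : T) : T := (IsAlgClosed.exists_pow_nat_eq z two_pos).choose

theorem sq_sq (z : T) : sq z ^ 2 = z := (IsAlgClosed.exists_pow_nat_eq z two_pos).choose_spec

open Classical in
/-- The Kummer character. -/
noncomputable def chi (z : T) (g : T ≃ₐ[E] T) : ZMod 2 :=
  if Fx E z ∧ g (sq z) ≠ sq z then 1 else 0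

variable {E}

theorem chi_spec {z r : T} (hz : Fx E z) (hr : r ^ 2 = z) (g : T ≃ₐ[E] T) :
    g r = sgn (chi E z g) * r := by
  have h1 : g (sq z) = sgn (chi E z g) * sq z := by
    have := Fx.pm (E := E) (b := sq z) (by rwa [sq_sq]) g
    by_cases h : g (sq z) = sq z
    · simp [chi, h, sgn]
    · rw [chi, if_pos ⟨hz, h⟩, this.resolve_left h]
      simp
  rcases sq_eq_sq_iff_eq_or_eq_neg.1 (hr.trans (sq_sq z).symm) with e | e
  · rw [e, h1]
  · rw [e, map_neg, h1, mul_neg]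

variable [CharZero T]

theorem chi_eq {z r : T} (hz : Un E z) (hr : r ^ 2 = z) {g : T ≃ₐ[E] T} {c : ZMod 2}
    (h : g r = sgn c * r) : chi E z g = c :=
  sgn_inj (r := r) (by rintro rfl; exact hz.1 (by simp [← hr])) ((chi_spec hz.2 hr g).symm.trans h)

theorem chi_mul {x y : T} (hx : Un E x) (hy : Un E y) (g : T ≃ₐ[E] T) :
    chi E (x * y) g = chi E x g + chi E y g :=
  chi_eq (r := sq x * sq y) (hx.mul hy) (by rw [mul_pow, sq_sq, sq_sq]) (by
    rw [map_mul, chi_spec hx.2 (sq_sq x), chi_spec hy.2 (sq_sq y), sgn_add]; ring)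

theorem chi_sq {x : T} (hx : Un E x) (g : T ≃ₐ[E] T) : chi E (x * x) g = 0 :=
  chi_eq (r := x) (hx.mul hx) (pow_two x) (by simp [sgn, hx.2 g])

variable [Algebra.IsIntegral E T]

variable (E) in
theorem isCh (z : T) : IsCh (chi E z) := by
  classical
  refine ⟨(lc_apply E (sq z)).comp fun w => if Fx E z ∧ w ≠ sq z then 1 else 0, fun g h => ?_⟩
  by_cases hz : Un E z
  · refine chi_eq hz (sq_sq z) ?_
    rw [AlgEquiv.mul_apply, chi_spec hz.2 (sq_sq z) h, map_mul, map_sgn,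
      chi_spec hz.2 (sq_sq z) g, sgn_add]
    ring
  · by_cases h0 : z = 0
    · have : sq z = 0 := by simpa [h0] using sq_sq z
      simp [chi, this]
    · have : ¬ Fx E z := fun h => hz ⟨h0, h⟩
      simp [chi, this]

/-- The cup product of `b²` with a norm from the extension generated by `b` vanishes. -/
theorem r2_norm {b n : T} (hb : Un E (b ^ 2)) (hn : Nm E b n) (n0 : n ≠ 0) :
    R2 (chi E n) (chi E (b ^ 2)) := by
  classical
  have nf := hn.fx hb.2
  obtain ⟨l, l', hc, rfl⟩ := hn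
  have b0 : b ≠ 0 := fun h => hb.1 (by simp [h])
  let rr : ZMod 2 → T := fun c => if c = 0 then sq l else sq l'
  have r0 : ∀ c, rr c ≠ 0 := by
    intro c h
    refine n0 ?_
    rw [← sq_sq l, ← sq_sq l']
    simp only [rr] at h
    split_ifs at h <;> simp [h]
  have rm : ∀ c, rr c * rr (1 + c) = rr 0 * rr 1 := by
    intro c
    fin_cases c
    · rfl
    · exact mul_comm _ _
  let φ : (T ≃ₐ[E] T) → ZMod 2 := fun g => if g (sq l) = rr (chi E (b ^ 2) g) then 0 else 1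
  have h1 : ∀ g, g (rr 0) = sgn (φ g) * rr (chi E (b ^ 2) g) := by
    intro g
    have e : g (sq l) ^ 2 = rr (chi E (b ^ 2) g) ^ 2 := by
      rw [← map_pow, sq_sq]
      rcases hb.2.pm g with e | e
      · rw [chi_eq (c := 0) hb rfl (by simp [sgn, e]), ((hc g).1 e).1]
        exact (sq_sq l).symm
      · rw [chi_eq (c := 1) hb rfl (by simp [sgn, e]), ((hc g).2 e).1]
        exact (sq_sq l').symm
    change g (sq l) = _
    by_cases h : g (sq l) = rr (chi E (b ^ 2) g)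
    · simp [φ, h, sgn]
    · simp only [φ, h, if_false]
      simp [sgn, (sq_eq_sq_iff_eq_or_eq_neg.1 e).resolve_left h]
  have h2 : ∀ g c, g (rr c) =
      sgn (φ g + chi E (l * l') g * c) * rr (c + chi E (b ^ 2) g) := by
    intro g c
    rcases z2 c with rfl | rfl
    · rw [mul_zero, add_zero, zero_add, h1]
    · have e := chi_spec (r := rr 0 * rr 1) nf (by
        rw [mul_pow]; exact congrArg₂ (· * ·) (sq_sq l) (sq_sq l')) g
      rw [map_mul, h1, ← rm (chi E (b ^ 2) g)] at e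
      have e2 : (sgn (φ g) : T) * sgn (φ g) = 1 := by
        rw [← sgn_add, CharTwo.add_self_eq_zero]; rfl
      refine mul_left_cancel₀ (r0 (chi E (b ^ 2) g)) ?_
      rw [mul_one, sgn_add]
      linear_combination sgn (φ g) * e - rr (chi E (b ^ 2) g) * g (rr 1) * e2
  refine ⟨φ, ((lc_apply E (sq l)).prodMk (isCh E (b ^ 2)).1).comp
    fun w => if w.1 = rr w.2 then 0 else 1, fun g h => ?_⟩
  refine sgn_inj (r0 (chi E (b ^ 2) (g * h))) ?_
  rw [← h1, AlgEquiv.mul_apply, h1, map_mul, map_sgn, h2, (isCh E _).2, add_comm (chi E _ h)]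
  simp only [sgn_add]
  ring

variable (E) in
/-- The symbol `(b², x, y)`. -/
noncomputable def S (b x y : T) : H3 (T ≃ₐ[E] T) := cl3 (isCh E (b ^ 2)) (isCh E x) (isCh E y)

variable {b : T}

theorem S_comm (x y : T) : S E b x y = S E b y x := cl3_comm _ _ _

theorem S_mul {x y : T} (hx : Un E x) (hy : Un E y) (z : T) :
    S E b (x * y) z = S E b x z + S E b y z := cl3_add _ _ _ _ _ (chi_mul hx hy)

theorem S_mul' {x y : T} (hx : Un E x) (hy : Un E y) (z : T) :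
    S E b z (x * y) = S E b z x + S E b z y := by
  rw [S_comm, S_mul hx hy, S_comm x, S_comm y]

theorem S_sq {x : T} (hx : Un E x) (z : T) : S E b (x * x) z = 0 :=
  cl3_zero _ _ _ fun g h k => by rw [chi_sq hx]; simp

theorem S_norm (hb : Un E (b ^ 2)) {n : T} (hn : Nm E b n) (n0 : n ≠ 0) (z : T) :
    S E b n z = 0 := cl3_left _ _ _ ((r2_norm hb hn n0).symm (isCh E _) (isCh E _))

theorem S_st {x n : T} (hx : Un E x) (hn : Nm E (sq x) n) (n0 : n ≠ 0) : S E b n x = 0 := by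
  have := r2_norm (b := sq x) (by rwa [sq_sq]) hn n0
  rw [sq_sq] at this
  exact cl3_right _ _ _ this

theorem S_key (hb : Un E (b ^ 2)) (hi : ∃ i, Fx E i ∧ i * i = (-1 : T)) {B A : T} (hB : Un E B)
    (hA : Un E A) (h : Nm E b (A - B)) : S E b B A = 0 := by
  obtain ⟨i, i1, i2⟩ := hi
  have i0 : Un E i := ⟨by rintro rfl; simp at i2, i1⟩
  have hneg : ∀ x z, Un E x → S E b (-x) z = S E b x z := fun x z hx => by
    rw [← neg_one_mul, ← i2, S_mul (i0.mul i0) hx, S_sq i0, zero_add]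
  by_cases h0 : A - B = 0
  · rw [sub_eq_zero.1 h0, ← hneg _ _ hB]
    refine S_st hB ⟨sq B, -sq B, fun g => ⟨fun e => ?_, fun e => ?_⟩, ?_⟩ hB.neg.1
    · simp [e]
    · simp [e]
    · rw [mul_neg, ← pow_two, sq_sq]
  · have hn : Un E (A - B) := ⟨h0, h.fx hb.2⟩
    have h1 : S E b (A / (A - B)) (-B / (A - B)) = 0 := by
      refine S_st (hB.neg.div hn) ⟨1 + sq (-B / (A - B)), 1 - sq (-B / (A - B)),
        fun g => ⟨fun e => ?_, fun e => ?_⟩, ?_⟩ (hA.div hn).1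
      · simp [e]
      · rw [map_add, map_sub, map_one, e, sub_neg_eq_add, ← sub_eq_add_neg]
        exact ⟨rfl, rfl⟩
      · rw [← sq_sub_sq, sq_sq]
        field_simp
        ring
    have h2 := S_mul (b := b) (hA.div hn) hn (-B / (A - B))
    have h3 := S_mul (b := b) (hB.neg.div hn) hn A
    rw [div_mul_cancel₀ _ h0, S_norm hb h h0, add_zero] at h2 h3
    rw [← hneg _ _ hB, h3, S_comm, h2, h1]

theorem S_move (hb : Un E (b ^ 2)) (hi : ∃ i, Fx E i ∧ i * i = (-1 : T)) {B p q : T}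
    (hB : Un E B) (hp : Un E p) (hq : Un E q) (h : Nm E b (p * q - B)) :
    S E b B p = S E b B q := by
  have h1 := S_key hb hi hB (hp.mul hq) h
  have h2 := S_sq (b := b) hq B
  rw [S_comm, S_mul' hq hq] at h2
  rw [S_mul' hp hq] at h1
  exact add_right_cancel (h1.trans h2.symm)

/-- The symbol of a hermitian form does not depend on the flag. -/
theorem S_flag (hb : Un E (b ^ 2)) (hi : ∃ i, Fx E i ∧ i * i = (-1 : T))
    {m0 m1 m2 m3 m01 m12 m23 m012 m123 D : T} (h0 : Un E m0) (h1 : Un E m1) (h2 : Un E m2)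
    (h3 : Un E m3) (h01 : Un E m01) (h12 : Un E m12) (h23 : Un E m23) (h012 : Un E m012)
    (h123 : Un E m123) (hD : Nm E b D) (D0 : D ≠ 0) (e1 : Nm E b (m0 * m1 - m01))
    (e2 : Nm E b (m01 * m12 - m1 * m012)) (e3 : Nm E b (m012 * m123 - m12 * D))
    (e4 : Nm E b (m1 * m2 - m12)) (e5 : Nm E b (m12 * m23 - m2 * m123))
    (e6 : Nm E b (m2 * m3 - m23)) : S E b m01 (m0 * m012) = S E b m23 (m3 * m123) := by
  have hD' : Un E D := ⟨D0, hD.fx hb.2⟩
  have a3 := S_move hb hi (h12.mul hD') h012 h123 e3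
  rw [S_mul h12 hD', S_mul h12 hD', S_norm hb hD D0, S_norm hb hD D0, add_zero, add_zero] at a3
  rw [S_mul' h0 h012, S_move hb hi h01 h0 h1 e1, ← S_mul' h1 h012, S_comm,
    S_move hb hi (h1.mul h012) h01 h12 e2, S_comm, S_mul' h1 h012, a3,
    S_move hb hi h12 h1 h2 e4, ← S_mul' h2 h123, S_comm, S_move hb hi (h2.mul h123) h12 h23 e5,
    S_comm, S_mul' h2 h123, S_move hb hi h23 h2 h3 e6, ← S_mul' h3 h123]

end Fld

end Pool.Agent.MP_5fa3de_ag

end MrgPart1

-- ======== part 2: formerly Pool.Agent.MP_5fa3de_ag.Flag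
section MrgPart2

/-! Minors of hermitian matrices of size four: choice of a good flag. -/

namespace Pool.Agent.MP_5fa3de_ag

open Matrix Polynomial

section Min

variable {R R' : Type} [CommRing R] [CommRing R']

/-- Minors of size two. -/
def m2 (N : Matrix (Fin 4) (Fin 4) R) (i j k l : Fin 4) : R := N i k * N j l - N i l * N j k

/-- Minors of size three. -/
def m3 (N : Matrix (Fin 4) (Fin 4) R) (i j k p q r : Fin 4) : R :=
  N i p * m2 N j k q r - N i q * m2 N j k p r + N i r * m2 N j k p q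

/-- Principal minors of size two. -/
abbrev d2 (N : Matrix (Fin 4) (Fin 4) R) (i j : Fin 4) : R := m2 N i j i j

/-- Principal minors of size three. -/
abbrev d3 (N : Matrix (Fin 4) (Fin 4) R) (i j k : Fin 4) : R := m3 N i j k i j k

/-- Cofactors. -/
def cof (N : Matrix (Fin 4) (Fin 4) R) : Matrix (Fin 4) (Fin 4) R :=
  !![m3 N 1 2 3 1 2 3, -m3 N 1 2 3 0 2 3, m3 N 1 2 3 0 1 3, -m3 N 1 2 3 0 1 2;
    -m3 N 0 2 3 1 2 3, m3 N 0 2 3 0 2 3, -m3 N 0 2 3 0 1 3, m3 N 0 2 3 0 1 2;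
    m3 N 0 1 3 1 2 3, -m3 N 0 1 3 0 2 3, m3 N 0 1 3 0 1 3, -m3 N 0 1 3 0 1 2;
    -m3 N 0 1 2 1 2 3, m3 N 0 1 2 0 2 3, -m3 N 0 1 2 0 1 3, m3 N 0 1 2 0 1 2]

theorem det4 (N : Matrix (Fin 4) (Fin 4) R) : N.det = N 0 0 * m3 N 1 2 3 1 2 3 -
    N 0 1 * m3 N 1 2 3 0 2 3 + N 0 2 * m3 N 1 2 3 0 1 3 - N 0 3 * m3 N 1 2 3 0 1 2 := by
  rw [det_succ_row_zero]
  simp [Fin.sum_univ_four, det_fin_three, Fin.succAbove, m3, m2]
  ring

theorem map_m2 (f : R →+* R') (N : Matrix (Fin 4) (Fin 4) R) (i j k l : Fin 4) :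
    f (m2 N i j k l) = m2 (N.map f) i j k l := by simp [m2]

theorem map_m3 (f : R →+* R') (N : Matrix (Fin 4) (Fin 4) R) (i j k p q r : Fin 4) :
    f (m3 N i j k p q r) = m3 (N.map f) i j k p q r := by simp [m3, m2]

theorem map_cof (f : R →+* R') (N : Matrix (Fin 4) (Fin 4) R) (i j : Fin 4) :
    f (cof N i j) = cof (N.map f) i j := by
  fin_cases i <;> fin_cases j <;> simp [cof, map_m3]

theorem jac2 (N : Matrix (Fin 4) (Fin 4) R) (i j : Fin 4) :
    N i i * N j j - d2 N i j = N i j * N j i := by simp only [m2]; ring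

theorem jac3 (N : Matrix (Fin 4) (Fin 4) R) (i j k : Fin 4) :
    d2 N i j * d2 N j k - N j j * d3 N i j k = m2 N i j j k * m2 N j k i j := by
  simp only [m2, m3]; ring

theorem jac4 (N : Matrix (Fin 4) (Fin 4) R) :
    d3 N 0 1 2 * d3 N 1 2 3 - d2 N 1 2 * N.det = m3 N 0 1 2 1 2 3 * m3 N 1 2 3 0 1 2 := by
  simp only [det4, m2, m3]; ring

/-- Lower unitriangular matrices. -/
def lo (a b c d e f : R) : Matrix (Fin 4) (Fin 4) R :=
  !![1, 0, 0, 0; a, 1, 0, 0; b, c, 1, 0; d, e, f, 1]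

theorem det_lo (a b c d e f : R) : (lo a b c d e f).det = 1 := by simp [det4, lo, m3, m2]

theorem lo_mul (a b c d e f a' b' c' d' e' f' : R) : lo a b c d e f * lo a' b' c' d' e' f' =
    lo (a + a') (b + c * a' + b') (c + c') (d + e * a' + f * b' + d') (e + f * c' + e')
      (f + f') := by
  ext i j
  fin_cases i <;> fin_cases j <;> simp [lo, Matrix.mul_apply, Fin.sum_univ_four]

theorem lo_map (φ : R →+* R') (a b c d e f : R) :
    (lo a b c d e f).map φ = lo (φ a) (φ b) (φ c) (φ d) (φ e) (φ f) := by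
  ext i j
  fin_cases i <;> fin_cases j <;> simp [lo]

theorem avoid {T : Type} [Field T] [CharZero T] (f : R →+* T) (F : R[X]) (t : ℕ)
    (h : f (F.eval (t : R)) ≠ 0) : {s : ℕ | f (F.eval (s : R)) = 0}.Finite := by
  classical
  have e : ∀ s : ℕ, f (F.eval (s : R)) = (F.map f).eval (s : T) := fun s => by
    rw [← map_natCast f, eval_map_apply]
  have h0 : F.map f ≠ 0 := fun h0 => h (by rw [e, h0, eval_zero])
  refine ((F.map f).roots.toFinset.finite_toSet.preimage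
    (Nat.cast_injective (R := T)).injOn).subset fun s hs => ?_
  have hs' : f (F.eval (s : R)) = 0 := hs
  simpa [h0, ← e] using hs'

end Min

section Star

variable {R κ T : Type} [CommRing R] [StarRing R] [Field κ] [CharZero κ] [Field T] [CharZero T]

theorem star_m2 {N : Matrix (Fin 4) (Fin 4) R} (h : N.IsHermitian) (i j k l : Fin 4) :
    star (m2 N i j k l) = m2 N k l i j := by
  simp only [m2, star_sub, star_mul, h.apply]; ring

theorem star_m3 {N : Matrix (Fin 4) (Fin 4) R} (h : N.IsHermitian) (i j k p q r : Fin 4) :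
    star (m3 N i j k p q r) = m3 N p q r i j k := by
  simp only [m3, m2, star_sub, star_add, star_mul, h.apply]; ring

theorem bil (ρ : R →+* κ) (ω : R) (h1 : star ω = -ω) (h2 : ρ ω ≠ 0) {n : ℕ}
    (B : Fin (n + 1) → Fin (n + 1) → κ) (hB : ¬ ∀ i j, B i j = 0) :
    ∃ w : Fin (n + 1) → R, w 0 = 1 ∧ ∑ i, ∑ j, ρ (w i) * ρ (star (w j)) * B i j ≠ 0 := by
  by_contra! h
  have key : ∀ i j : Fin (n + 1), i ≠ 0 → j ≠ 0 → ∀ l m : R,
      B 0 0 + ρ (star l) * B 0 i + ρ (star m) * B 0 j +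
      ρ l * (B i 0 + ρ (star l) * B i i + ρ (star m) * B i j) +
      ρ m * (B j 0 + ρ (star l) * B j i + ρ (star m) * B j j) = 0 := by
    intro i j hi hj l m
    have := h (Pi.single 0 1 + Pi.single i l + Pi.single j m) (by simp [hi, hj])
    simp only [Pi.add_apply, star_add, map_add, add_mul, mul_add, Finset.sum_add_distrib,
      Pi.single_apply, apply_ite star, apply_ite ρ, star_zero, star_one, map_zero, map_one,
      ite_mul, mul_ite, zero_mul, mul_zero, Finset.sum_ite_eq', Finset.mem_univ, if_true] at this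
    linear_combination this
  have h0 : B 0 0 = 0 := by
    have := h (Pi.single 0 1) (by simp)
    simpa [Pi.single_apply, apply_ite star, apply_ite ρ] using this
  have h3 : ∀ i, i ≠ 0 → B i i = 0 ∧ B 0 i = 0 ∧ B i 0 = 0 := by
    intro i hi
    have a1 := key i i hi hi 1 0
    have a2 := key i i hi hi (-1) 0
    have a3 := key i i hi hi ω 0
    simp only [star_one, star_zero, star_neg, map_one, map_zero, map_neg, h1, h0] at a1 a2 a3
    have b1 : B i i = 0 := by linear_combination (a1 + a2) / 2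
    have b2 : ρ ω * (B i 0 - B 0 i) = 0 := by linear_combination a3 + ρ ω ^ 2 * b1
    have b3 := (mul_eq_zero.1 b2).resolve_left h2
    exact ⟨b1, by linear_combination (a1 - b1 - b3) / 2, by linear_combination (a1 - b1 + b3) / 2⟩
  refine hB fun i j => ?_
  by_cases hi : i = 0
  · by_cases hj : j = 0
    · rw [hi, hj, h0]
    · rw [hi, (h3 j hj).2.1]
  by_cases hj : j = 0
  · rw [hj, (h3 i hi).2.2]
  have a1 := key i j hi hj 1 1
  have a2 := key i j hi hj ω 1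
  simp only [star_one, map_one, map_neg, h1, h0, h3 i hi, h3 j hj] at a1 a2
  have b2 : ρ ω * (B i j - B j i) = 0 := by linear_combination a2
  linear_combination (a1 + (mul_eq_zero.1 b2).resolve_left h2) / 2

/-- Congruence. -/
def cg (P N : Matrix (Fin 4) (Fin 4) R) : Matrix (Fin 4) (Fin 4) R := P * N * Pᴴ

theorem cg_mul (P Q N : Matrix (Fin 4) (Fin 4) R) : cg (P * Q) N = cg P (cg Q N) := by
  simp only [cg, conjTranspose_mul, Matrix.mul_assoc]

theorem lo_ct (a b c d e f : R) : (lo a b c d e f)ᴴ =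
    (lo (star a) (star b) (star c) (star d) (star e) (star f))ᵀ := by
  ext i j
  fin_cases i <;> fin_cases j <;> simp [lo]

theorem cg_lo (a b c d e f : R) (N : Matrix (Fin 4) (Fin 4) R) (i j : Fin 4) :
    cg (lo a b c d e f) N i j = ∑ l, (∑ k, lo a b c d e f i k * N k l) *
      lo (star a) (star b) (star c) (star d) (star e) (star f) j l := by
  simp only [cg, lo_ct, Matrix.mul_apply, transpose_apply]

theorem stepA (ρ : R →+* κ) (ω : R) (h1 : star ω = -ω) (h2 : ρ ω ≠ 0)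
    (N : Matrix (Fin 4) (Fin 4) R) (h : ¬ ∀ i j, ρ (cof N i j) = 0) :
    ∃ a b d, ρ (d3 (cg (lo a b 0 d 0 0) N) 1 2 3) ≠ 0 := by
  obtain ⟨w, w0, hw⟩ := bil ρ ω h1 h2 (fun i j => ρ (cof N i j)) h
  refine ⟨-w 1, -w 2, -w 3, fun h0 => hw ?_⟩
  simp only [← map_mul, ← map_sum]
  rw [← h0]
  congr 1
  simp only [m3, m2, cg_lo]
  simp [lo, w0, cof, m3, m2, Fin.sum_univ_succ]
  ring

theorem stepB (ρ : R →+* κ) (ω : R) (h1 : star ω = -ω) (h2 : ρ ω ≠ 0)
    (N : Matrix (Fin 4) (Fin 4) R) (h : ρ (d3 N 1 2 3) ≠ 0) :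
    ∃ c e, ρ (d3 (cg (lo 0 0 c 0 e 0) N) 1 2 3) ≠ 0 ∧ ρ (d2 (cg (lo 0 0 c 0 e 0) N) 2 3) ≠ 0 := by
  obtain ⟨w, w0, hw⟩ := bil ρ ω h1 h2 (fun i j => ρ (!![m2 N 2 3 2 3, -m2 N 2 3 1 3, m2 N 2 3 1 2;
      -m2 N 1 3 2 3, m2 N 1 3 1 3, -m2 N 1 3 1 2; m2 N 1 2 2 3, -m2 N 1 2 1 3, m2 N 1 2 1 2] i j))
    fun hh => h (by
      have a := hh 0 0
      have b := hh 0 1
      have c := hh 0 2
      simp at a b c
      simp [m3, a, b, c])
  refine ⟨-w 1, -w 2, fun h0 => h ?_, fun h0 => hw ?_⟩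
  · rw [← h0]
    congr 1
    simp only [m3, m2, cg_lo, Fin.sum_univ_four]
    simp [lo]
    ring
  · simp only [← map_mul, ← map_sum]
    rw [← h0]
    congr 1
    simp only [m2, cg_lo]
    simp [lo, w0, Fin.sum_univ_succ]
    ring

theorem stepC (ρ : R →+* κ) (ω : R) (h1 : star ω = -ω) (h2 : ρ ω ≠ 0)
    (N : Matrix (Fin 4) (Fin 4) R) (h : ρ (d3 N 1 2 3) ≠ 0) (h' : ρ (d2 N 2 3) ≠ 0) :
    ∃ f, ρ (d3 (cg (lo 0 0 0 0 0 f) N) 1 2 3) ≠ 0 ∧ ρ (d2 (cg (lo 0 0 0 0 0 f) N) 2 3) ≠ 0 ∧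
      ρ (cg (lo 0 0 0 0 0 f) N 3 3) ≠ 0 := by
  obtain ⟨w, w0, hw⟩ := bil ρ ω h1 h2 (fun i j => ρ (!![N 3 3, -N 3 2; -N 2 3, N 2 2] i j))
    fun hh => h' (by
      have a := hh 0 0
      have b := hh 0 1
      simp at a b
      simp [m2, a, b])
  refine ⟨-w 1, fun h0 => h ?_, fun h0 => h' ?_, fun h0 => hw ?_⟩
  · rw [← h0]
    congr 1
    simp only [m3, m2, cg_lo, Fin.sum_univ_four]
    simp [lo]
    ring
  · rw [← h0]
    congr 1
    simp only [m2, cg_lo, Fin.sum_univ_four]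
    simp [lo]
    ring
  · simp only [← map_mul, ← map_sum]
    rw [← h0]
    congr 1
    simp only [cg_lo]
    simp [lo, w0, Fin.sum_univ_succ]
    ring

/-- A congruent matrix with the same leading minors whose trailing minors are units. -/
theorem goodFlag (π : R →+* T) (ρ : R →+* κ) (ω : R) (h1 : star ω = -ω) (h2 : ρ ω ≠ 0)
    (N : Matrix (Fin 4) (Fin 4) R) (hN : N.IsHermitian) (h : ¬ ∀ i j, ρ (cof N i j) = 0)
    (n1 : π (N 1 1) ≠ 0) (n2 : π (N 2 2) ≠ 0) (n12 : π (d2 N 1 2) ≠ 0) :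
    ∃ M : Matrix (Fin 4) (Fin 4) R, M.IsHermitian ∧ M 0 0 = N 0 0 ∧ d2 M 0 1 = d2 N 0 1 ∧
      d3 M 0 1 2 = d3 N 0 1 2 ∧ M.det = N.det ∧ π (M 1 1) ≠ 0 ∧ π (M 2 2) ≠ 0 ∧
      π (d2 M 1 2) ≠ 0 ∧ ρ (M 3 3) ≠ 0 ∧ ρ (d2 M 2 3) ≠ 0 ∧ ρ (d3 M 1 2 3) ≠ 0 := by
  obtain ⟨a, b, d, hA⟩ := stepA ρ ω h1 h2 N h
  obtain ⟨c, e, hB, hB'⟩ := stepB ρ ω h1 h2 _ hA
  obtain ⟨f, c3, c2, c1⟩ := stepC ρ ω h1 h2 _ hB hB'
  rw [← cg_mul, ← cg_mul, lo_mul, lo_mul] at c1 c2 c3
  generalize (0 + 0 + a : R) = a at c1 c2 c3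
  generalize (0 + 0 * 0 + 0 + (0 + c) * _ + b : R) = b at c1 c2 c3
  generalize (0 + c + 0 : R) = c' at c1 c2 c3
  generalize (0 + 0 * 0 + f * 0 + 0 + (0 + f * c + e) * _ + (f + 0) * _ + d : R) = d at c1 c2 c3
  generalize (0 + f * c + e + (f + 0) * 0 + 0 : R) = e at c1 c2 c3
  generalize (f + 0 + 0 : R) = f at c1 c2 c3
  let Mp : Matrix (Fin 4) (Fin 4) R[X] :=
    lo (X * C a) (X * C b) (X * C c') (X * C d) (X * C e) (X * C f) * N.map C *
    (lo (X * C (star a)) (X * C (star b)) (X * C (star c')) (X * C (star d)) (X * C (star e))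
      (X * C (star f)))ᵀ
  have hM : ∀ s : ℕ, Mp.map (evalRingHom (s : R)) =
      cg (lo (s * a) (s * b) (s * c') (s * d) (s * e) (s * f)) N := by
    intro s
    have : (N.map C).map (evalRingHom (s : R)) = N := by
      ext i j
      simp
    simp only [Mp, Matrix.map_mul, cg, lo_ct, transpose_map, lo_map, this]
    simp only [coe_evalRingHom, eval_mul, eval_X, eval_C, star_mul', star_natCast]
  have e1 : ∀ (s : ℕ) i, (Mp i i).eval (s : R) =
      cg (lo (s * a) (s * b) (s * c') (s * d) (s * e) (s * f)) N i i := fun s i => by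
    rw [← hM]; rfl
  have e2 : ∀ (s : ℕ) i j, (d2 Mp i j).eval (s : R) =
      d2 (cg (lo (s * a) (s * b) (s * c') (s * d) (s * e) (s * f)) N) i j := fun s i j => by
    rw [← hM]; exact map_m2 (evalRingHom (s : R)) _ _ _ _ _
  have e3 : ∀ (s : ℕ) i j k, (d3 Mp i j k).eval (s : R) =
      d3 (cg (lo (s * a) (s * b) (s * c') (s * d) (s * e) (s * f)) N) i j k := fun s i j k => by
    rw [← hM]; exact map_m3 (evalRingHom (s : R)) _ _ _ _ _ _ _
  have z : cg (lo (((0 : ℕ) : R) * a) ((0 : ℕ) * b) ((0 : ℕ) * c') ((0 : ℕ) * d) ((0 : ℕ) * e)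
      ((0 : ℕ) * f)) N = N := by
    have : (lo 0 0 0 0 0 0 : Matrix (Fin 4) (Fin 4) R) = 1 := by
      ext i j
      fin_cases i <;> fin_cases j <;> simp [lo]
    simp [cg, this]
  have f1 := avoid π (Mp 1 1) 0 (by rwa [e1, z])
  have f2 := avoid π (Mp 2 2) 0 (by rwa [e1, z])
  have f3 := avoid π (d2 Mp 1 2) 0 (by rwa [e2, z])
  have f4 := avoid ρ (Mp 3 3) 1 (by rw [e1]; simpa using c1)
  have f5 := avoid ρ (d2 Mp 2 3) 1 (by rw [e2]; simpa using c2)
  have f6 := avoid ρ (d3 Mp 1 2 3) 1 (by rw [e3]; simpa using c3)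
  obtain ⟨s, hs⟩ := (((((f1.union f2).union f3).union f4).union f5).union f6).infinite_compl.nonempty
  simp only [Set.mem_compl_iff, Set.mem_union, Set.mem_ofPred_eq, not_or, e1, e2, e3] at hs
  obtain ⟨⟨⟨⟨⟨s1, s2⟩, s3⟩, s4⟩, s5⟩, s6⟩ := hs
  refine ⟨cg _ N, isHermitian_mul_mul_conjTranspose _ hN, ?_, ?_, ?_, ?_, s1, s2, s3, s4, s5, s6⟩
  · simp only [cg_lo, Fin.sum_univ_four]
    simp [lo]
  · simp only [m2, cg_lo, Fin.sum_univ_four]
    simp [lo]
    ring
  · simp only [m3, m2, cg_lo, Fin.sum_univ_four]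
    simp [lo]
    ring
  · rw [cg, det_mul, det_mul, lo_ct, det_transpose, det_lo, det_lo, one_mul, mul_one]

end Star

end Pool.Agent.MP_5fa3de_ag

end MrgPart2

-- ======== part 3: formerly Pool.Agent.MP_5fa3de_ag.Unr
section MrgPart3

/-! The symbol attached to the hermitian matrix is unramified. -/

namespace Pool.Agent.MP_5fa3de_ag

open Matrix IsLocalRing

section Alg

variable {R R' : Type} [CommRing R] [CommRing R']

/-- The quartic form in four variables. -/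
def ff (L μ p q r s : R) : R :=
  p * q * r * s - L * (p ^ 3 * q + q ^ 3 * r + r ^ 3 * s + s ^ 3 * p) + μ * (p * r - q * s) ^ 2

/-- Its derivative with respect to the first variable. -/
def fd (L μ p q r s : R) : R := q * r * s - L * (3 * p ^ 2 * q + s ^ 3) + 2 * μ * (p * r - q * s) * r

/-- The matrix of linear forms. -/
def Hm (u v p q r s : R) : Matrix (Fin 4) (Fin 4) R :=
  !![p, u * r, 0, v * q; v * r, q, u * s, 0; 0, v * s, r, u * p; u * q, 0, v * p, s]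

theorem Hm_map (f : R →+* R') (u v p q r s : R) :
    (Hm u v p q r s).map f = Hm (f u) (f v) (f p) (f q) (f r) (f s) := by
  ext i j
  fin_cases i <;> fin_cases j <;> simp [Hm]

theorem Hm_herm [StarRing R] {u v p q r s : R} (hu : star u = v) (hp : star p = p)
    (hq : star q = q) (hr : star r = r) (hs : star s = s) : (Hm u v p q r s).IsHermitian := by
  subst hu
  ext i j
  fin_cases i <;> fin_cases j <;> simp [Hm, hp, hq, hr, hs]

theorem Hm_div {T : Type} [Field T] (u v p q r s t : T) :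
    Hm u v (p / t) (q / t) (r / t) (s / t) = t⁻¹ • Hm u v p q r s := by
  ext i j
  fin_cases i <;> fin_cases j <;> simp [Hm] <;> ring

theorem map_ff (f : R →+* R') (L μ p q r s : R) :
    f (ff L μ p q r s) = ff (f L) (f μ) (f p) (f q) (f r) (f s) := by simp [ff]

/-- The relations between the parameters. -/
structure Par {K : Type} [Field K] [CharZero K] (L μ a e ρ γ : K) : Prop where
  tr : Transcendental ℚ L
  hμ : μ * (1 - L ^ 4) = L ^ 2
  h1 : a ^ 2 - e = L * ρ ^ 2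
  h2 : ρ ^ 2 = 1 - 16 * a ^ 2 * e
  h3 : e * γ ^ 2 = ρ ^ 2 * μ - L ^ 2 * ρ ^ 4
  e0 : e ≠ 0
  ρ0 : ρ ≠ 0
  γ0 : γ ≠ 0

theorem Par.map {K K' : Type} [Field K] [CharZero K] [Field K'] [CharZero K'] {L μ a e ρ γ : K}
    (P : Par L μ a e ρ γ) (f : K →+* K') : Par (f L) (f μ) (f a) (f e) (f ρ) (f γ) where
  tr := fun h => P.tr ((isAlgebraic_algHom_iff f.toRatAlgHom f.injective).1 h)
  hμ := by simpa using congrArg f P.hμ
  h1 := by simpa using congrArg f P.h1
  h2 := by simpa [map_ofNat] using congrArg f P.h2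
  h3 := by simpa using congrArg f P.h3
  e0 := by simpa using P.e0
  ρ0 := by simpa using P.ρ0
  γ0 := by simpa using P.γ0

theorem Par.det {K : Type} [Field K] [CharZero K] {L μ a b ρ γ : K} (P : Par L μ a (b ^ 2) ρ γ)
    {p q r s x : K} (hx : x ^ 4 = ff L μ p q r s) : (Hm (a + b) (a - b) p q r s).det =
      (ρ * x ^ 2 + b * (γ * (p * r - q * s))) * (ρ * x ^ 2 - b * (γ * (p * r - q * s))) := by
  have h1 := P.h1
  have h2 := P.h2
  have h3 := P.h3
  simp only [det4, m3, m2, ff] at hx ⊢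
  simp [Hm]
  linear_combination (-(ρ ^ 2)) * hx + (p * r - q * s) ^ 2 * h3 - p * q * r * s * h2 +
    ((a ^ 2 - b ^ 2 + L * ρ ^ 2) * (p * r - q * s) ^ 2 -
      (p ^ 3 * q + q ^ 3 * r + r ^ 3 * s + s ^ 3 * p)) * h1

end Alg

theorem scale {T ι : Type} [Field T] [Finite ι] (V : ValuationSubring T) (ξ : ι → T)
    (h : ¬ ∀ i, ξ i = 0) : ∃ j, ξ j ≠ 0 ∧ ∀ i, ξ i / ξ j ∈ V := by
  push Not at h
  obtain ⟨i0, h0⟩ := h
  have : Nonempty ι := ⟨i0⟩
  obtain ⟨j, hj⟩ := Finite.exists_max fun i => V.valuation (ξ i)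
  have hj0 : V.valuation (ξ j) ≠ 0 := fun h => h0 (by simpa [h] using hj i0)
  refine ⟨j, by simpa using hj0, fun i => ?_⟩
  rw [← V.valuation_le_one_iff, map_div₀]
  exact div_le_one_of_le₀ (hj i) zero_le

theorem loop {T : Type} [Field T] [CharZero T] {p q r s : T} (h0 : 3 * p ^ 2 * q + s ^ 3 = 0)
    (h1 : 3 * q ^ 2 * r + p ^ 3 = 0) (h2 : 3 * r ^ 2 * s + q ^ 3 = 0)
    (h3 : 3 * s ^ 2 * p + r ^ 3 = 0) : p = 0 ∧ q = 0 ∧ r = 0 ∧ s = 0 := by
  have h : (p * q * r * s) ^ 3 = 0 := by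
    have e : (p ^ 3) * (q ^ 3) * (r ^ 3) * (s ^ 3) =
        (-(3 * q ^ 2 * r)) * (-(3 * r ^ 2 * s)) * (-(3 * s ^ 2 * p)) * (-(3 * p ^ 2 * q)) := by
      rw [← eq_neg_of_add_eq_zero_right h0, ← eq_neg_of_add_eq_zero_right h1,
        ← eq_neg_of_add_eq_zero_right h2, ← eq_neg_of_add_eq_zero_right h3]
    linear_combination (-1 / 80 : T) * e
  have h' := (pow_eq_zero_iff (by norm_num)).1 h
  simp only [mul_eq_zero] at h'
  rcases h' with ((h' | h') | h') | h' <;> subst h' <;> simp_all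

/-- The quartic surface is smooth. -/
theorem sm {T : Type} [Field T] [CharZero T] {L μ : T} (tr : Transcendental ℚ L)
    (hμ : μ * (1 - L ^ 4) = L ^ 2) (y : Fin 4 → T) (h0 : fd L μ (y 0) (y 1) (y 2) (y 3) = 0)
    (h1 : fd L μ (y 1) (y 2) (y 3) (y 0) = 0) (h2 : fd L μ (y 2) (y 3) (y 0) (y 1) = 0)
    (h3 : fd L μ (y 3) (y 0) (y 1) (y 2) = 0) : ∀ i, y i = 0 := by
  by_contra hy
  have : IsIntegrallyClosedIn (integralClosure ℚ T).toSubring T :=
    inferInstanceAs (IsIntegrallyClosedIn (integralClosure ℚ T) T)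
  obtain ⟨V, hV, hL⟩ := Subring.exists_le_valuationSubring_of_isIntegrallyClosedIn
    (R := (integralClosure ℚ T).toSubring) (x := L) fun h => tr (IsIntegral.isAlgebraic h)
  let c : ℚ →+* V := (algebraMap ℚ T).codRestrict V fun q => hV (isIntegral_algebraMap)
  have : CharZero (ResidueField V) :=
    charZero_of_injective_ringHom ((residue V).comp c).injective
  have L0 : L ≠ 0 := fun h => hL (h ▸ V.zero_mem)
  have hX : L⁻¹ ∈ V.nonunits := V.inv_mem_nonunits_iff.2 (Or.inr hL)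
  let X : V := ⟨L⁻¹, V.nonunits_subset hX⟩
  have hX0 : residue V X = 0 := (residue_eq_zero_iff _).2 (V.coe_mem_nonunits_iff.1 hX)
  have hu : IsUnit (X ^ 4 - 1) := by
    rw [← residue_ne_zero_iff_isUnit]
    simp [hX0]
  obtain ⟨w, hw⟩ := hu.exists_right_inv
  have hw' : (L⁻¹ ^ 4 - 1) * (w : T) = 1 := congrArg Subtype.val hw
  have hν : μ = L * (L⁻¹ ^ 3 * w) := by
    field_simp at hw' ⊢
    refine mul_left_cancel₀ (pow_ne_zero 4 L0) ?_
    linear_combination (-(L ^ 2 * μ)) * hw' + L ^ 2 * (w : T) * hμ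
  obtain ⟨j, hj, hm⟩ := scale V y hy
  let z : Fin 4 → V := fun i => ⟨y i / y j, hm i⟩
  have key : ∀ a b c d, fd L μ (y a) (y b) (y c) (y d) = 0 →
      3 * residue V (z a) ^ 2 * residue V (z b) + residue V (z d) ^ 3 = 0 := by
    intro a b c d h
    have e : 3 * z a ^ 2 * z b + z d ^ 3 =
        X * (z b * z c * z d + 2 * X ^ 2 * w * (z a * z c - z b * z d) * z c) := by
      refine Subtype.ext ?_
      change 3 * (y a / y j) ^ 2 * (y b / y j) + (y d / y j) ^ 3 = L⁻¹ * (y b / y j * (y c / y j) *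
        (y d / y j) + 2 * L⁻¹ ^ 2 * w * (y a / y j * (y c / y j) - y b / y j * (y d / y j)) *
        (y c / y j))
      rw [fd, hν] at h
      field_simp at h ⊢
      linear_combination (-1 : T) * h
    have := congrArg (residue V) e
    rw [map_mul _ X, hX0, zero_mul] at this
    simpa [map_ofNat] using this
  have hz := loop (key _ _ _ _ h0) (key _ _ _ _ h1) (key _ _ _ _ h2) (key _ _ _ _ h3)
  have h4 : residue V (z j) = 0 := by
    fin_cases j
    exacts [hz.1, hz.2.1, hz.2.2.1, hz.2.2.2]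
  have h5 : z j = 1 := Subtype.ext (div_self hj)
  simp [h5] at h4

/-- At a point where the matrix has corank two and the two factors vanish the quartic would be
singular. -/
theorem Par.sing {K : Type} [Field K] [CharZero K] {L μ a b ρ γ : K} (P : Par L μ a (b ^ 2) ρ γ)
    (y : Fin 4 → K) (h : ∀ i j, cof (Hm (a + b) (a - b) (y 0) (y 1) (y 2) (y 3)) i j = 0)
    (hW : y 0 * y 2 - y 1 * y 3 = 0) : ∀ i, y i = 0 := by
  have h1 := P.h1
  have h2 := P.h2
  have ρ2 := pow_ne_zero 2 P.ρ0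
  have c00 := h 0 0
  have c11 := h 1 1
  have c22 := h 2 2
  have c33 := h 3 3
  have c01 := h 0 1
  have c10 := h 1 0
  have c12 := h 1 2
  have c21 := h 2 1
  have c23 := h 2 3
  have c32 := h 3 2
  have c30 := h 3 0
  have c03 := h 0 3
  simp [cof, m3, m2, Hm, -mul_eq_zero] at c00 c11 c22 c33 c01 c10 c12 c21 c23 c32 c30 c03
  refine sm P.tr P.hμ y ?_ ?_ ?_ ?_ <;> refine mul_left_cancel₀ ρ2 ?_ <;> rw [fd]
  · linear_combination c00 + (a + b) * c23 + (a - b) * c32 + y 1 * y 2 * y 3 * h2 +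
      (3 * y 0 ^ 2 * y 1 + y 3 ^ 3) * h1 + 2 * (ρ ^ 2 * μ - (a ^ 2 - b ^ 2) ^ 2) * y 2 * hW
  · linear_combination c11 + (a + b) * c30 + (a - b) * c03 + y 2 * y 3 * y 0 * h2 +
      (3 * y 1 ^ 2 * y 2 + y 0 ^ 3) * h1 - 2 * (ρ ^ 2 * μ - (a ^ 2 - b ^ 2) ^ 2) * y 3 * hW
  · linear_combination c22 + (a + b) * c01 + (a - b) * c10 + y 3 * y 0 * y 1 * h2 +
      (3 * y 2 ^ 2 * y 3 + y 1 ^ 3) * h1 + 2 * (ρ ^ 2 * μ - (a ^ 2 - b ^ 2) ^ 2) * y 0 * hW
  · linear_combination c33 + (a + b) * c12 + (a - b) * c21 + y 0 * y 1 * y 2 * h2 +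
      (3 * y 3 ^ 2 * y 0 + y 2 ^ 3) * h1 - 2 * (ρ ^ 2 * μ - (a ^ 2 - b ^ 2) ^ 2) * y 1 * hW

section Val

variable {E : Type} [Field E] (A : ValuationSubring (AlgebraicClosure E))

theorem memD (τ : A.decompositionSubgroup E) {z : AlgebraicClosure E} (hz : z ∈ A) : τ.1 z ∈ A :=
  (τ • (⟨z, hz⟩ : A)).2

theorem nonD (τ : A.decompositionSubgroup E) {z : AlgebraicClosure E} (hz : z ∈ A.nonunits) :
    τ.1 z ∈ A.nonunits := by
  rw [A.mem_nonunits_iff_or] at hz ⊢
  refine hz.imp (fun h => by rw [h, map_zero]) fun h h' => h ?_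
  have := memD A τ⁻¹ h'
  rwa [← map_inv₀, ← AlgEquiv.mul_apply, ← Subgroup.coe_mul, inv_mul_cancel] at this

theorem inert {σ : A.decompositionSubgroup E} (hσ : σ ∈ A.inertiaSubgroup E)
    {z : AlgebraicClosure E} (hz : z ∈ A) : σ.1 z - z ∈ A.nonunits := by
  have h : σ • residue A ⟨z, hz⟩ = residue A ⟨z, hz⟩ :=
    DFunLike.congr_fun (MonoidHom.mem_ker.1 hσ) (residue A ⟨z, hz⟩)
  rw [← ResidueField.residue_smul, ← sub_eq_zero, ← map_sub, residue_eq_zero_iff] at h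
  exact A.coe_mem_nonunits_iff.2 h

theorem mem_of_sq {z : AlgebraicClosure E} (h : z ^ 2 ∈ A) : z ∈ A := by
  rw [← A.valuation_le_one_iff] at h ⊢
  rwa [map_pow, pow_le_one_iff two_ne_zero] at h

theorem non_mul {x y : AlgebraicClosure E} (hx : x ∉ A.nonunits) (h : x * y ∈ A.nonunits) :
    y ∈ A.nonunits := by
  rw [A.mem_nonunits_iff] at *
  rw [map_mul] at h
  by_contra hy
  exact absurd h (not_lt.2 (one_le_mul (not_lt.1 hx) (not_lt.1 hy)))

theorem non_mul' {x y : AlgebraicClosure E} (hx : x ∈ A) (hy : y ∈ A.nonunits) :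
    x * y ∈ A.nonunits := by
  rw [A.mem_nonunits_iff] at *
  rw [map_mul]
  exact (mul_le_of_le_one_left' ((A.valuation_le_one_iff _).2 hx)).trans_lt hy

theorem pull_pull {G G' G'' : Type} [Group G] [TopologicalSpace G] [Group G'] [TopologicalSpace G']
    [Group G''] [TopologicalSpace G''] (f : G →* G') (hf : Continuous f) (g : G' →* G'')
    (hg : Continuous g) (k : G →* G'') (hk : Continuous k) (h : ∀ x, k x = g (f x)) (c : H3 G'') :
    H3.pull f hf (H3.pull g hg c) = H3.pull k hk c := by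
  obtain rfl : k = g.comp f := MonoidHom.ext h
  obtain ⟨c⟩ := c
  rfl

/-- Constant classes are unramified. -/
theorem range_le (K : Type) [Field K] [Algebra K E] : (rho K E).range ≤ H3nr K E := by
  rintro _ ⟨c, rfl⟩
  refine AddSubgroup.mem_iInf.2 fun A => AddSubgroup.mem_iInf.2 fun hA => ?_
  have hm : ∀ z, emb K E z ∈ A := by
    intro z
    have h1 : IsIntegral A (emb K E z) :=
      (Algebra.IsIntegral.isIntegral (R := K) z).map_of_comp_eq
        ((algebraMap K (AlgebraicClosure E)).codRestrict A hA.2) (emb K E).toRingHom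
        (RingHom.ext fun c => ((emb K E).commutes c).symm)
    obtain ⟨y, hy⟩ := IsIntegrallyClosed.isIntegral_iff.1 h1
    exact hy ▸ y.2
  have hk : A.inertiaSubgroup E ≤ ((res K E).comp (A.decompositionSubgroup E).subtype).ker := by
    intro σ hσ
    refine AlgEquiv.ext fun z => ?_
    have h1 := inert A hσ (hm z)
    rw [← emb_res K E, ← map_sub, A.mem_nonunits_iff_or, ← map_inv₀] at h1
    exact sub_eq_zero.1 ((map_eq_zero _).1 (h1.resolve_right fun h => h (hm _)))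
  have hc : Continuous ((res K E).comp (A.decompositionSubgroup E).subtype) :=
    (res_continuous K E).comp continuous_subtype_val
  have hl : Continuous (QuotientGroup.lift _ _ hk) :=
    (QuotientGroup.isQuotientMap_mk _).continuous_iff.2 hc
  exact ⟨H3.pull _ hl c, (pull_pull _ _ _ _ _ hc (fun _ => rfl) c).trans
    (pull_pull _ _ _ _ _ hc (fun _ => rfl) c).symm⟩

theorem chi_inert (h2 : (2 : AlgebraicClosure E) ∉ A.nonunits) {u : AlgebraicClosure E}
    (hu : Fx E u) (uA : u ∈ A) (un : u ∉ A.nonunits) (σ : A.decompositionSubgroup E)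
    (hσ : σ ∈ A.inertiaSubgroup E) : chi E u σ.1 = 0 := by
  have h1 := mem_of_sq A (z := sq u) (by rwa [sq_sq])
  have h3 := inert A hσ h1
  rw [chi_spec hu (sq_sq u)] at h3
  refine (z2 _).resolve_right fun h => un ?_
  rw [h, sgn_one, show -1 * sq u - sq u = 2 * (-sq u) by ring] at h3
  have := non_mul' A h1 (A.nonunits.neg_mem (non_mul A h2 h3))
  rwa [neg_neg, ← pow_two, sq_sq] at this

variable [CharZero E]

theorem unr_units (h2 : (2 : AlgebraicClosure E) ∉ A.nonunits) {b x y : AlgebraicClosure E}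
    (hb : Fx E (b ^ 2)) (bA : b ^ 2 ∈ A) (bn : b ^ 2 ∉ A.nonunits) (hx : Fx E x) (xA : x ∈ A)
    (xn : x ∉ A.nonunits) (hy : Fx E y) (yA : y ∈ A) (yn : y ∉ A.nonunits) :
    S E b x y ∈ UnrAt E A := by
  have hc : Continuous (A.decompositionSubgroup E).subtype := continuous_subtype_val
  obtain ⟨a1, i1, e1⟩ := ((isCh E (b ^ 2)).comp _ hc).desc _ (chi_inert A h2 hb bA bn)
  obtain ⟨a2, i2, e2⟩ := ((isCh E x).comp _ hc).desc _ (chi_inert A h2 hx xA xn)
  obtain ⟨a3, i3, e3⟩ := ((isCh E y).comp _ hc).desc _ (chi_inert A h2 hy yA yn)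
  exact ⟨cl3 i1 i2 i3, (pull_cl3 _ _ _ _ _).trans ((cl3_congr _ _ _ _ _ _ (funext e1) (funext e2)
    (funext e3)).trans (pull_cl3 _ _ _ _ hc).symm)⟩

theorem unr_split {b : AlgebraicClosure E} (hb : Un E (b ^ 2))
    (h : ∀ τ : A.decompositionSubgroup E, τ.1 b = b) (x y : AlgebraicClosure E) :
    S E b x y ∈ UnrAt E A := by
  refine ⟨0, (map_zero _).trans ((pull_cl3 _ _ _ _ _).trans (cl3_zero _ _ _ fun g _ _ => ?_)).symm⟩
  have : chi E (b ^ 2) g.1 = 0 := chi_eq hb rfl (by simp [h g])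
  change chi E (b ^ 2) g.1 * _ * _ = 0
  rw [this, zero_mul, zero_mul]

/-- Pairs of conjugate integral elements. -/
def CR (b : AlgebraicClosure E) : Subring (AlgebraicClosure E × AlgebraicClosure E) where
  carrier := {p | Conj E b p.1 p.2 ∧ p.1 ∈ A ∧ p.2 ∈ A}
  mul_mem' := fun {p q} hp hq => ⟨fun g => ⟨fun e => by simp [(hp.1 g).1 e, (hq.1 g).1 e],
    fun e => by simp [(hp.1 g).2 e, (hq.1 g).2 e]⟩, mul_mem hp.2.1 hq.2.1, mul_mem hp.2.2 hq.2.2⟩
  add_mem' := fun {p q} hp hq => ⟨fun g => ⟨fun e => by simp [(hp.1 g).1 e, (hq.1 g).1 e],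
    fun e => by simp [(hp.1 g).2 e, (hq.1 g).2 e]⟩, add_mem hp.2.1 hq.2.1, add_mem hp.2.2 hq.2.2⟩
  neg_mem' := fun {p} hp => ⟨fun g => ⟨fun e => by simp [(hp.1 g).1 e],
    fun e => by simp [(hp.1 g).2 e]⟩, neg_mem hp.2.1, neg_mem hp.2.2⟩
  one_mem' := ⟨fun g => by simp, one_mem _, one_mem _⟩
  zero_mem' := ⟨fun g => by simp, zero_mem _, zero_mem _⟩

noncomputable instance crStar (b : AlgebraicClosure E) : StarRing (CR A b) where
  star p := ⟨p.1.swap, fun g => ⟨fun e => ((p.2.1 g).1 e).symm, fun e => ((p.2.1 g).2 e).symm⟩,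
    p.2.2.2, p.2.2.1⟩
  star_involutive _ := rfl
  star_mul _ _ := Subtype.ext (Prod.ext (mul_comm _ _) (mul_comm _ _))
  star_add _ _ := rfl

/-- The symbol attached to the matrix. -/
noncomputable def beta (a b p q r s : AlgebraicClosure E) : H3 (Gal E) :=
  S E b (d2 (Hm (a + b) (a - b) p q r s) 0 1) (p * d3 (Hm (a + b) (a - b) p q r s) 0 1 2)

/-- The minors that have to be nonzero. -/
def Nz {T : Type} [Field T] (a b p q r s : T) : Prop :=
  p ≠ 0 ∧ q ≠ 0 ∧ r ≠ 0 ∧ d2 (Hm (a + b) (a - b) p q r s) 0 1 ≠ 0 ∧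
    d2 (Hm (a + b) (a - b) p q r s) 1 2 ≠ 0 ∧ d3 (Hm (a + b) (a - b) p q r s) 0 1 2 ≠ 0 ∧
    (Hm (a + b) (a - b) p q r s).det ≠ 0

variable {K : Type} [Field K] [CharZero K] (κ : K →+* AlgebraicClosure E) {L μ a e ρ γ : K}

theorem unr_core (hκ : ∀ c, Fx E (κ c)) (P : Par L μ a e ρ γ)
    (hi : ∃ i : K, i * i = -1) {b x : AlgebraicClosure E} (hb : b ^ 2 = κ e)
    (y : Fin 4 → AlgebraicClosure E) (fx : Fx E x) (fy : ∀ j, Fx E (y j))
    (hu : ¬ (x ∈ A.nonunits ∧ ∀ j, y j ∈ A.nonunits))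
    (hx : x ^ 4 = ff (κ L) (κ μ) (y 0) (y 1) (y 2) (y 3))
    (nz : Nz (κ a) b (y 0) (y 1) (y 2) (y 3)) (un : ∀ c, c ≠ 0 → κ c ∉ A.nonunits)
    (τ : A.decompositionSubgroup E) (hτ' : τ.1 b = -b) {R : Type} [CommRing R] [StarRing R]
    (π : R →+* AlgebraicClosure E) (r : R →+* ResidueField A) (k : K →+* R) (Y : Fin 4 → R)
    (X ω : R) (hr : ∀ p, r p = 0 ↔ π p ∈ A.nonunits) (cj : ∀ p, Conj E b (π p) (π (star p)))
    (hω : star ω = -ω) (sk : ∀ c, star (k c) = k c) (sY : ∀ j, star (Y j) = Y j)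
    (sX : star X = X) (πk : ∀ c, π (k c) = κ c) (πY : ∀ j, π (Y j) = y j) (πX : π X = x)
    (πω : π ω = b) (eω : k e = ω ^ 2) (πA : ∀ p, π p ∈ A) :
    beta (κ a) b (y 0) (y 1) (y 2) (y 3) ∈ UnrAt E A := by
  have h2 : (2 : AlgebraicClosure E) ∉ A.nonunits := by
    simpa [map_ofNat] using un 2 two_ne_zero
  have hb' : Un E (b ^ 2) := hb ▸ ⟨by simpa using P.e0, hκ e⟩
  have bA : b ∈ A := πω ▸ πA ω
  have bn : b ∉ A.nonunits := fun h => un e P.e0 (by rw [← hb, pow_two]; exact non_mul' A bA h)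
  let N := Hm (k a + ω) (k a - ω) (Y 0) (Y 1) (Y 2) (Y 3)
  have hN : N.IsHermitian :=
    Hm_herm (by rw [star_add, sk, hω, sub_eq_add_neg]) (sY _) (sY _) (sY _) (sY _)
  have πN : N.map π = Hm (κ a + b) (κ a - b) (y 0) (y 1) (y 2) (y 3) := by
    simp only [N, Hm_map, map_add, map_sub, πk, πω, πY]
  have : CharZero (ResidueField A) := charZero_of_injective_ringHom (r.comp k).injective
  have hP : Par (κ L) (κ μ) (κ a) (b ^ 2) (κ ρ) (κ γ) := hb ▸ P.map κ
  have hdet := hP.det hx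
  have hcof : ¬ ∀ i j, r (cof N i j) = 0 := by
    intro hc
    have e0 : r (k e) = r ω ^ 2 := by rw [eω, map_pow]
    have hP' : Par (r (k L)) (r (k μ)) (r (k a)) (r ω ^ 2) (r (k ρ)) (r (k γ)) :=
      e0 ▸ P.map (r.comp k)
    have d0 : r N.det = 0 := by
      have a0 := hc 0 0
      have a1 := hc 0 1
      have a2 := hc 0 2
      have a3 := hc 0 3
      simp [cof] at a0 a1 a2 a3
      simp [det4, a0, a1, a2, a3]
    rw [hr, RingHom.map_det, RingHom.mapMatrix_apply, πN, hdet] at d0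
    set g0 := κ ρ * x ^ 2 with hg0
    set g1 := κ γ * (y 0 * y 2 - y 1 * y 3) with hg1
    have t0 : τ.1 g0 = g0 := by simp [hg0, hκ ρ τ.1, fx τ.1]
    have t1 : τ.1 g1 = g1 := by simp [hg1, hκ γ τ.1, fy _ τ.1]
    have both : g0 + b * g1 ∈ A.nonunits ∧ g0 - b * g1 ∈ A.nonunits := by
      by_cases h : g0 + b * g1 ∈ A.nonunits
      · refine ⟨h, ?_⟩
        have := nonD A τ h
        rwa [map_add, t0, map_mul, t1, hτ', neg_mul, ← sub_eq_add_neg] at this
      · have h' := non_mul A h d0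
        have := nonD A τ h'
        rw [map_sub, t0, map_mul, t1, hτ', neg_mul, sub_neg_eq_add] at this
        exact absurd this h
    have n0 : x ∈ A.nonunits := by
      have := A.nonunits.add_mem both.1 both.2
      rw [show g0 + b * g1 + (g0 - b * g1) = 2 * (κ ρ * (x * x)) by rw [hg0]; ring] at this
      have h3 := non_mul A (un ρ P.ρ0) (non_mul A h2 this)
      by_contra h
      exact h (non_mul A h h3)
    have n1 : y 0 * y 2 - y 1 * y 3 ∈ A.nonunits := by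
      have := A.nonunits.sub_mem both.1 both.2
      rw [show g0 + b * g1 - (g0 - b * g1) = 2 * (b * g1) by ring] at this
      exact non_mul A (un γ P.γ0) (non_mul A bn (non_mul A h2 this))
    refine hu ⟨n0, fun j => πY j ▸ (hr (Y j)).1
      (hP'.sing (fun j => r (Y j)) (fun i j => ?_) ?_ j)⟩
    · have := hc i j
      rwa [map_cof, Hm_map, map_add, map_sub] at this
    · rw [← map_mul, ← map_mul, ← map_sub, hr]
      simpa only [map_sub, map_mul, πY] using n1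
  obtain ⟨z0, z1, z2, z01, z12, z012, zd⟩ := nz
  obtain ⟨M, hM, a0, a01, a012, ad, b1, b2, b12, c3, c23, c123⟩ := goodFlag π r ω hω
    ((hr ω).not.2 (by rwa [πω])) N hN hcof ((πY 1).trans_ne z1) ((πY 2).trans_ne z2) (by rwa [map_m2, πN])
  have fx' : ∀ p, star p = p → Fx E (π p) := fun p h => Conj.fx hb'.2 (by simpa [h] using cj p)
  have f1 : ∀ i, Fx E (π (M i i)) := fun i => fx' _ (hM.apply i i)
  have f2 : ∀ i j, Fx E (π (d2 M i j)) := fun i j => fx' _ (star_m2 hM _ _ _ _)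
  have f3 : ∀ i j l, Fx E (π (d3 M i j l)) := fun i j l => fx' _ (star_m3 hM _ _ _ _ _ _)
  have nm : ∀ p q, q = star p → Nm E b (π (p * q)) := fun p q h =>
    ⟨_, _, cj p, by rw [map_mul, h]⟩
  have r0 : ∀ p, r p ≠ 0 → π p ≠ 0 := fun p h h' => h ((hr p).2 (h' ▸ A.nonunits.zero_mem))
  have p0 : π (M 0 0) = y 0 := by rw [a0]; exact πY 0
  have p01 : π (d2 M 0 1) = d2 (Hm (κ a + b) (κ a - b) (y 0) (y 1) (y 2) (y 3)) 0 1 := by
    rw [a01, map_m2, πN]
  have p012 : π (d3 M 0 1 2) = d3 (Hm (κ a + b) (κ a - b) (y 0) (y 1) (y 2) (y 3)) 0 1 2 := by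
    rw [a012, map_m3, πN]
  have pd : π M.det = (Hm (κ a + b) (κ a - b) (y 0) (y 1) (y 2) (y 3)).det := by
    rw [ad, RingHom.map_det, RingHom.mapMatrix_apply, πN]
  obtain ⟨i, hi⟩ := hi
  have key := S_flag (D := π M.det) hb' ⟨κ i, hκ i, by rw [← map_mul, hi]; simp⟩
    ⟨p0.trans_ne z0, f1 0⟩ ⟨b1, f1 1⟩ ⟨b2, f1 2⟩ ⟨r0 _ c3, f1 3⟩ ⟨p01.trans_ne z01, f2 0 1⟩ ⟨b12, f2 1 2⟩
    ⟨r0 _ c23, f2 2 3⟩ ⟨p012.trans_ne z012, f3 0 1 2⟩ ⟨r0 _ c123, f3 1 2 3⟩
    (by
      rw [pd, hdet]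
      have := nm (k ρ * X ^ 2 + ω * (k γ * (Y 0 * Y 2 - Y 1 * Y 3)))
        (k ρ * X ^ 2 - ω * (k γ * (Y 0 * Y 2 - Y 1 * Y 3)))
        (by simp only [star_add, star_sub, star_mul', star_pow, sk, sX, sY, hω]; ring)
      simpa only [map_add, map_sub, map_mul, map_pow, πk, πX, πY, πω] using this)
    (pd.trans_ne zd)
    (by rw [← map_mul, ← map_sub, jac2]; exact nm _ _ (hM.apply _ _).symm)
    (by rw [← map_mul, ← map_mul, ← map_sub, jac3]; exact nm _ _ (star_m2 hM _ _ _ _).symm)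
    (by rw [← map_mul, ← map_mul, ← map_sub, jac4]; exact nm _ _ (star_m3 hM _ _ _ _ _ _).symm)
    (by rw [← map_mul, ← map_sub, jac2]; exact nm _ _ (hM.apply _ _).symm)
    (by rw [← map_mul, ← map_mul, ← map_sub, jac3]; exact nm _ _ (star_m2 hM _ _ _ _).symm)
    (by rw [← map_mul, ← map_sub, jac2]; exact nm _ _ (hM.apply _ _).symm)
  rw [p0, p01, p012] at key
  rw [beta, key, ← map_mul]
  refine unr_units A h2 hb'.2 (pow_mem bA 2) (hb ▸ un e P.e0) (f2 2 3) (πA _)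
    ((hr _).not.1 c23) (by rw [map_mul]; exact (Un.mul ⟨r0 _ c3, f1 3⟩ ⟨r0 _ c123, f3 1 2 3⟩).2)
    (πA _) ((hr _).not.1 (by rw [map_mul]; exact mul_ne_zero c3 c123))

theorem unr_int (hκ : ∀ c, Fx E (κ c)) (hA : ∀ c, κ c ∈ A) (P : Par L μ a e ρ γ)
    (hi : ∃ i : K, i * i = -1) {b x : AlgebraicClosure E} (hb : b ^ 2 = κ e)
    (y : Fin 4 → AlgebraicClosure E) (fx : Fx E x) (fy : ∀ j, Fx E (y j)) (xA : x ∈ A)
    (yA : ∀ j, y j ∈ A) (hu : ¬ (x ∈ A.nonunits ∧ ∀ j, y j ∈ A.nonunits))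
    (hx : x ^ 4 = ff (κ L) (κ μ) (y 0) (y 1) (y 2) (y 3))
    (nz : Nz (κ a) b (y 0) (y 1) (y 2) (y 3)) :
    beta (κ a) b (y 0) (y 1) (y 2) (y 3) ∈ UnrAt E A := by
  have un : ∀ c, c ≠ 0 → κ c ∉ A.nonunits := fun c hc h =>
    (A.mem_nonunits_iff_or.1 h).elim (by simpa using hc) fun h => h (map_inv₀ κ c ▸ hA _)
  have hb' : Un E (b ^ 2) := hb ▸ ⟨by simpa using P.e0, hκ e⟩
  by_cases hτ : ∀ τ : A.decompositionSubgroup E, τ.1 b = b
  · exact unr_split A hb' hτ _ _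
  push Not at hτ
  obtain ⟨τ, hτ⟩ := hτ
  have bA : b ∈ A := mem_of_sq A (hb ▸ hA e)
  let π : CR A b →+* AlgebraicClosure E := (RingHom.fst _ _).comp (CR A b).subtype
  let dg : ∀ z, Fx E z → z ∈ A → CR A b := fun z h1 h2 =>
    ⟨(z, z), fun g => ⟨fun _ => ⟨h1 g, h1 g⟩, fun _ => ⟨h1 g, h1 g⟩⟩, h2, h2⟩
  exact unr_core A κ hκ P hi hb y fx fy hu hx nz un τ ((hb'.2.pm τ.1).resolve_left hτ) π
    ((residue A).comp (π.codRestrict A fun p => p.2.2.1))
    ((κ.prod κ).codRestrict _ fun c => (dg _ (hκ c) (hA c)).2) (fun j => dg _ (fy j) (yA j))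
    (dg _ fx xA)
    ⟨(b, -b), fun g => ⟨fun e => by simp [e], fun e => by simp [e]⟩, bA, neg_mem bA⟩
    (fun p => (residue_eq_zero_iff _).trans A.coe_mem_nonunits_iff.symm) (fun p => p.2.1)
    (Subtype.ext (Prod.ext rfl (neg_neg b).symm)) (fun _ => rfl) (fun _ => rfl) rfl
    (fun _ => rfl) (fun _ => rfl) rfl rfl
    (Subtype.ext (Prod.ext hb.symm (hb.symm.trans (neg_sq b).symm))) fun p => p.2.2.1

/-- The symbol is unramified. -/
theorem unr (hκ : ∀ c, Fx E (κ c)) (hA : ∀ c, κ c ∈ A) (P : Par L μ a e ρ γ)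
    (hi : ∃ i : K, i * i = -1) {b x : AlgebraicClosure E} (hb : b ^ 2 = κ e)
    (y : Fin 4 → AlgebraicClosure E) (fx : Fx E x) (fy : ∀ j, Fx E (y j))
    (hx : x ^ 4 = ff (κ L) (κ μ) (y 0) (y 1) (y 2) (y 3))
    (nz : Nz (κ a) b (y 0) (y 1) (y 2) (y 3)) :
    beta (κ a) b (y 0) (y 1) (y 2) (y 3) ∈ UnrAt E A := by
  obtain ⟨j, hj, hm⟩ := scale A (fun o : Option (Fin 4) => o.elim x y) fun h => nz.1 (h (some 0))
  have ft : Fx E (j.elim x y) := by
    cases j
    exacts [fx, fy _]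
  have h1 : ¬ (x / j.elim x y ∈ A.nonunits ∧ ∀ i, y i / j.elim x y ∈ A.nonunits) := by
    intro h
    have : j.elim x y / j.elim x y ∈ A.nonunits := by
      cases j
      exacts [h.1, h.2 _]
    rw [div_self hj, A.mem_nonunits_iff, map_one] at this
    exact lt_irrefl _ this
  have xA := hm none
  have yA := fun i => hm (some i)
  simp only [Option.elim_none, Option.elim_some] at xA yA
  generalize j.elim x y = t at hj ft h1 xA yA
  have fd : ∀ z, Fx E z → Fx E (z / t) := fun z hz g => by rw [map_div₀, hz, ft]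
  have ht : Un E t⁻¹ := ⟨inv_ne_zero hj, fun g => by rw [map_inv₀, ft]⟩
  have e2 : ∀ i l, d2 (Hm (κ a + b) (κ a - b) (y 0 / t) (y 1 / t) (y 2 / t) (y 3 / t)) i l =
      t⁻¹ * t⁻¹ * d2 (Hm (κ a + b) (κ a - b) (y 0) (y 1) (y 2) (y 3)) i l := fun i l => by
    rw [Hm_div]
    simp only [m2, Matrix.smul_apply, smul_eq_mul]
    ring
  have e3 : d3 (Hm (κ a + b) (κ a - b) (y 0 / t) (y 1 / t) (y 2 / t) (y 3 / t)) 0 1 2 =
      t⁻¹ ^ 3 * d3 (Hm (κ a + b) (κ a - b) (y 0) (y 1) (y 2) (y 3)) 0 1 2 := by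
    rw [Hm_div]
    simp only [m2, m3, Matrix.smul_apply, smul_eq_mul]
    ring
  obtain ⟨z0, z1, z2, z01, z12, z012, zd⟩ := nz
  have key := unr_int A κ hκ hA P hi hb (fun i => y i / t) (fd _ fx) (fun i => fd _ (fy i)) xA yA
    h1 (by rw [div_pow, hx, ff, ff]; field_simp) ⟨div_ne_zero z0 hj, div_ne_zero z1 hj,
      div_ne_zero z2 hj, by rw [e2]; exact mul_ne_zero (ht.mul ht).1 z01,
      by rw [e2]; exact mul_ne_zero (ht.mul ht).1 z12,
      by rw [e3]; exact mul_ne_zero (pow_ne_zero _ ht.1) z012,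
      by rw [Hm_div, det_smul]; exact mul_ne_zero (pow_ne_zero _ ht.1) zd⟩
  have hb' : Fx E (b ^ 2) := hb ▸ hκ e
  have u2 : Un E (d2 (Hm (κ a + b) (κ a - b) (y 0) (y 1) (y 2) (y 3)) 0 1) := ⟨z01, fun g => by
    rcases hb'.pm g with h | h <;> simp [m2, Hm, h, hκ a g, fy _ g]
    ring⟩
  have u3 : Un E (y 0 * d3 (Hm (κ a + b) (κ a - b) (y 0) (y 1) (y 2) (y 3)) 0 1 2) :=
    ⟨mul_ne_zero z0 z012, fun g => by
      rcases hb'.pm g with h | h <;> simp [m2, m3, Hm, h, hκ a g, fy _ g, -mul_eq_mul_left_iff]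
      ring⟩
  rw [beta, e2, e3, show ∀ w, y 0 / t * (t⁻¹ ^ 3 * w) = (t⁻¹ * t⁻¹) * (t⁻¹ * t⁻¹) * (y 0 * w) from
    fun w => by ring, S_mul (ht.mul ht) u2, S_sq ht, zero_add,
    S_mul' ((ht.mul ht).mul (ht.mul ht)) u3, S_comm, S_sq (ht.mul ht), zero_add] at key
  exact key

end Val

end Pool.Agent.MP_5fa3de_ag

end MrgPart3

-- ======== part 4: formerly Pool.Agent.MP_5fa3de_ag.Ex
section MrgPart4

/-! The example: a smooth quartic threefold with a nonconstant unramified class. -/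

namespace Pool.Agent.MP_5fa3de_ag

open Hahn

/-- The group of exponents. -/
def Gm : Type := Lex (Fin 5 → ℚ)

instance : AddCommGroup Gm := inferInstanceAs (AddCommGroup (Lex (Fin 5 → ℚ)))

noncomputable instance : LinearOrder Gm := inferInstanceAs (LinearOrder (Lex (Fin 5 → ℚ)))

instance : IsOrderedAddMonoid Gm := inferInstanceAs (IsOrderedAddMonoid (Lex (Fin 5 → ℚ)))

instance : Module ℚ Gm := inferInstanceAs (Module ℚ (Lex (Fin 5 → ℚ)))

/-- The field of Hahn series. -/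
abbrev Om : Type := HahnSeries Gm ℂ

instance : IsAlgClosed Om := isAlgClosed_hahn

/-- Coordinates. -/
def pr (i : Fin 5) : Gm →+ ℚ := Pi.evalAddMonoidHom (fun _ => ℚ) i

/-- Exponents. -/
def gv (a b c d e : ℚ) : Gm := toLex ![a, b, c, d, e]

@[simp] theorem pr0 (a b c d e : ℚ) : pr 0 (gv a b c d e) = a := rfl
@[simp] theorem pr1 (a b c d e : ℚ) : pr 1 (gv a b c d e) = b := rfl
@[simp] theorem pr2 (a b c d e : ℚ) : pr 2 (gv a b c d e) = c := rfl
@[simp] theorem pr3 (a b c d e : ℚ) : pr 3 (gv a b c d e) = d := rfl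
@[simp] theorem pr4 (a b c d e : ℚ) : pr 4 (gv a b c d e) = e := rfl

theorem pr_mono : Monotone (pr 0) := fun _ _ h => Pi.apply_le_of_toLex h (by simp)

theorem Hahn.Ord.to {z : Om} {g g' : Gm} (h : Ord z g) (e : pr 0 g = pr 0 g' ∧ pr 1 g = pr 1 g' ∧
    pr 2 g = pr 2 g' ∧ pr 3 g = pr 3 g' ∧ pr 4 g = pr 4 g') : Ord z g' := by
  obtain rfl : g = g' := by
    funext i
    fin_cases i
    exacts [e.1, e.2.1, e.2.2.1, e.2.2.2.1, e.2.2.2.2]
  exact h

/-- Monomials. -/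
noncomputable def mo (a b c d e : ℚ) : Om := HahnSeries.single (gv a b c d e) 1

theorem ord_mo (a b c d e : ℚ) : Ord (mo a b c d e) (gv a b c d e) := ord_single _

/-- The nonconstancy criterion. -/
theorem nc {K E : Type} [Field K] [Field E] [Algebra K E] [CharZero E] [Algebra E Om]
    (j : AlgebraicClosure E →ₐ[E] Om) (hE : ∀ i, i = 1 ∨ i = 2 ∨ i = 3 → ∀ z,
      tw (pr i) (algebraMap E Om z) = algebraMap E Om z)
    (hK : ∀ i, i = 2 ∨ i = 3 → ∀ c : K, algebraMap E Om (algebraMap K E c) ∈ FixF (pr i))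
    {b m m' : AlgebraicClosure E} (fb : Fx E (b ^ 2)) (fm : Fx E m) (fm' : Fx E m')
    (ob : Ord (j (b ^ 2)) (gv 2 1 0 0 0)) (om : Ord (j m) (gv 0 0 1 0 0))
    (om' : Ord (j m') (gv 0 0 1 1 0)) : S E b m m' ∉ (rho K E).range := by
  let _ := j.toAlgebra
  have : IsScalarTower E (AlgebraicClosure E) Om :=
    IsScalarTower.of_algebraMap_eq fun x => (j.commutes x).symm
  have hg : ∀ i, i = 1 ∨ i = 2 ∨ i = 3 → ∃ g : Gal E, ∀ z, j (g z) = tw (pr i) (j z) := by
    intro i hi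
    let t : Om ≃ₐ[E] Om := AlgEquiv.ofRingEquiv (f := RingEquiv.ofRingHom (tw (pr i)) (tw (-pr i))
      (RingHom.ext fun z => by simp [tw_tw, tw_zero])
      (RingHom.ext fun z => by simp [tw_tw, tw_zero])) (hE i hi)
    exact ⟨t.restrictNormal _, fun z => t.restrictNormal_commutes _ z⟩
  obtain ⟨x, hx⟩ := hg 1 (by simp)
  obtain ⟨y, hy⟩ := hg 2 (by simp)
  obtain ⟨z, hz⟩ := hg 3 (by simp)
  have cm : ∀ {g g' : Gal E} {l l'}, (∀ z, j (g z) = tw l (j z)) → (∀ z, j (g' z) = tw l' (j z)) →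
      g * g' = g' * g := fun {g g' _ _} h h' => AlgEquiv.ext fun w => j.injective (by
    change j (g (g' w)) = j (g' (g w))
    rw [h, h', h', h, tw_tw, tw_tw, add_comm])
  have rs : ∀ {g : Gal E} {i}, i = 2 ∨ i = 3 → (∀ z, j (g z) = tw (pr i) (j z)) →
      res K E g = 1 := by
    intro g i hi h
    refine AlgEquiv.ext fun w => (emb K E).injective (j.injective ?_)
    change j (emb K E (res K E g w)) = j (emb K E w)
    rw [emb_res, h]
    obtain ⟨p, p0, hp⟩ := Algebra.IsAlgebraic.isAlgebraic (R := K) w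
    refine fixF_tw (mem_of_alg ((algebraMap E Om).comp (algebraMap K E)) (hK i hi) p0 ?_)
    have := congrArg (j.toRingHom.comp (emb K E).toRingHom) hp
    rw [Polynomial.aeval_def, Polynomial.hom_eval₂, map_zero] at this
    have e : (j.toRingHom.comp (emb K E).toRingHom).comp (algebraMap K _) =
        (algebraMap E Om).comp (algebraMap K E) := RingHom.ext fun c =>
      (congrArg j ((emb K E).commutes c)).trans (j.commutes (algebraMap K E c))
    rwa [e] at this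
  have ch : ∀ {g : Gal E} {l u γ} (c : ZMod 2), (∀ z, j (g z) = tw l (j z)) → Fx E u →
      Ord (j u) γ → ex (l ((1 / 2 : ℚ) • γ)) = sgn c → chi E u g = c := by
    intro g l u γ c h fu ou hc
    have o2 : Ord (j (sq u)) ((1 / 2 : ℚ) • γ) := Ord.root two_ne_zero (by
      rw [← map_pow, sq_sq, ← Nat.cast_smul_eq_nsmul ℚ, smul_smul]
      simpa using ou)
    refine chi_eq ⟨fun e => ou.ne (by rw [e, map_zero]), fu⟩ (sq_sq u) (j.injective ?_)
    change j _ = j _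
    rw [h, tw_root l 1 o2 (by rw [← map_pow, sq_sq, ← h, fu]), hc, map_mul]
    rcases z2 c with rfl | rfl
    · rw [sgn_zero, sgn_zero, map_one, map_one]
    · rw [sgn_one, sgn_one, map_neg, map_one, map_neg, map_one]
  have q : ∀ (i) (r : ℚ) (γ : Gm), pr i (r • γ) = r * pr i γ := fun _ _ _ => rfl
  exact not_pull _ _ _ _ _ x y z (cm hx hy) (cm hx hz) (cm hy hz) (rs (.inl rfl) hy)
    (rs (.inr rfl) hz) (ch 1 hx fb ob (by simpa [q] using ex_half))
    (ch 0 hy fb ob (by simp [q, ex_zero])) (ch 0 hz fb ob (by simp [q, ex_zero]))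
    (ch 1 hy fm om (by simpa [q] using ex_half)) (ch 0 hz fm om (by simp [q, ex_zero]))
    (ch 1 hz fm' om' (by simpa [q] using ex_half))

/-- The field of definition of the quartic. -/
noncomputable def Ff : Subfield Om := FixF (pr 1) ⊓ (FixF (pr 2) ⊓ FixF (pr 3) ⊓ FixF (pr 4))

/-- The field `K`. -/
noncomputable def Kf : Subfield Om :=
  (tw (pr 1)).eqLocusField (RingHom.id _) ⊓ (FixF (pr 2) ⊓ FixF (pr 3) ⊓ FixF (pr 4))

theorem Ff_le : Ff ≤ Kf := fun _ h => ⟨fixF_tw h.1, h.2⟩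

theorem mo_F (a : ℚ) : mo a 0 0 0 0 ∈ Ff :=
  ⟨single_mem _ rfl, ⟨single_mem _ rfl, single_mem _ rfl⟩, single_mem _ rfl⟩

theorem exists_iso : Nonempty (ℂ ≃+* Ff) := by
  have : IsAlgClosed Ff := by
    refine IsAlgClosed.of_exists_root _ fun p _ hp => ?_
    obtain ⟨z, hz⟩ := IsAlgClosed.exists_eval₂_eq_zero Ff.subtype p
      (Polynomial.degree_pos_of_irreducible hp).ne'
    have h : ∀ l, Ff ≤ FixF l → z ∈ FixF l := fun l hl =>
      mem_of_alg Ff.subtype (fun c => hl c.2) hp.ne_zero hz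
    refine ⟨⟨z, h _ inf_le_left, ⟨h _ fun _ h => h.2.1.1, h _ fun _ h => h.2.1.2⟩,
      h _ fun _ h => h.2.2⟩, Ff.subtype.injective ?_⟩
    rw [← Polynomial.eval₂_at_apply, map_zero]
    exact hz
  have : Countable Gm := inferInstanceAs (Countable (Fin 5 → ℚ))
  have h1 : Cardinal.mk ℂ = Cardinal.mk Ff := by
    apply le_antisymm
    · exact Cardinal.mk_le_of_injective (f := fun c : ℂ => (⟨HahnSeries.single 0 c,
        single_mem _ rfl, ⟨single_mem _ rfl, single_mem _ rfl⟩, single_mem _ rfl⟩ : Ff))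
        fun c c' h => HahnSeries.single_injective 0 (congrArg Subtype.val h)
    · refine (Cardinal.mk_le_of_injective (HahnSeries.coeff_injective.comp
        Subtype.val_injective)).trans ?_
      rw [← Cardinal.power_def, Cardinal.mk_complex]
      exact (Cardinal.power_le_power_left Cardinal.continuum_ne_zero Cardinal.mk_le_aleph0).trans
        Cardinal.continuum_power_aleph0.le
  refine IsAlgClosed.ringEquiv_of_equiv_of_charZero ?_ (Cardinal.eq.mp h1)
  rw [Cardinal.mk_complex]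
  exact Cardinal.aleph0_lt_continuum

theorem root_K {z : Om} {g : Gm} (h : z ^ 2 ∈ Kf) (o : Ord z g) (hg : pr 1 g = 0) : z ∈ Kf :=
  ⟨tw_fix _ 1 o h.1 (by rw [hg, ex_zero]), ⟨root_mem two_ne_zero h.2.1.1,
    root_mem two_ne_zero h.2.1.2⟩, root_mem two_ne_zero h.2.2⟩

theorem L_tr : Transcendental ℚ (mo 1 0 0 0 0) := by
  rintro ⟨p, p0, hp⟩
  have := (ord_mo 1 0 0 0 0).fix (mem_of_alg (l := pr 0) (algebraMap ℚ Om)
    (fun c => by rw [eq_ratCast]; exact SubfieldClass.ratCast_mem _ c) p0 hp)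
  simp at this

theorem bd_mo (b c d e : ℚ) : mo 0 b c d e ∈ Bd pr_mono := (ord_mo _ _ _ _ _).lv pr_mono le_rfl

theorem e_K : mo 2 1 0 0 0 ∈ Kf :=
  ⟨tw_single _ _ (ex_int 1), ⟨single_mem _ rfl, single_mem _ rfl⟩, single_mem _ rfl⟩

/-- The parameters. -/
theorem exists_par : ∃ μ a ρ γ : Om, μ ∈ Ff ∧ a ∈ Kf ∧ ρ ∈ Kf ∧ γ ∈ Kf ∧
    Par (mo 1 0 0 0 0) μ a (mo 2 1 0 0 0) ρ γ ∧ Ord ρ 0 ∧ Lv (pr 0) 1 μ ∧ γ ∈ Bd pr_mono := by
  have oL := ord_mo 1 0 0 0 0
  have oe := ord_mo 2 1 0 0 0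
  have fL := mo_F 1
  have kL := Ff_le fL
  have ke := e_K
  generalize hL : mo 1 0 0 0 0 = L at oL kL fL
  generalize mo 2 1 0 0 0 = e at oe ke
  have o16 : Ord (16 : Om) 0 := ord_nat 16 (by norm_num)
  have k16 : (16 : Om) ∈ Kf := ofNat_mem _ 16
  have o1 : Ord (1 - L ^ 4) 0 := ord_one.sub pr_mono ((oL.pow 4).lv pr_mono le_rfl) (by simp)
  have oμ := (oL.pow 2).div o1
  have fμ : L ^ 2 / (1 - L ^ 4) ∈ Ff := div_mem (pow_mem fL 2) (sub_mem (one_mem _) (pow_mem fL 4))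
  have kμ := Ff_le fμ
  have hμ := div_mul_cancel₀ (L ^ 2) o1.ne
  generalize L ^ 2 / (1 - L ^ 4) = μ at oμ kμ fμ hμ
  have o2 : Ord (1 + 16 * L * e) 0 :=
    ord_one.add pr_mono (((o16.mul oL).mul oe).lv pr_mono le_rfl) (by simp; norm_num)
  have o3 : Ord (L + e) _ := oL.add pr_mono (oe.lv pr_mono le_rfl) (by simp)
  obtain ⟨a, ha⟩ := IsAlgClosed.exists_pow_nat_eq ((L + e) / (1 + 16 * L * e)) two_pos
  have oa : Ord a (gv (1 / 2) 0 0 0 0) := Ord.root two_ne_zero (ha ▸ (o3.div o2).to (by simp))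
  have ka : a ∈ Kf := root_K (ha ▸ div_mem (add_mem kL ke)
    (add_mem (one_mem _) (mul_mem (mul_mem k16 kL) ke))) oa rfl
  obtain ⟨ρ, hρ⟩ := IsAlgClosed.exists_pow_nat_eq (1 - 16 * a ^ 2 * e) two_pos
  have oρ : Ord ρ 0 := Ord.root two_ne_zero (hρ ▸ (ord_one.sub pr_mono
    (((o16.mul (oa.pow 2)).mul oe).lv pr_mono le_rfl) (by simp; norm_num)).to (by simp))
  have kρ : ρ ∈ Kf := root_K (hρ ▸ sub_mem (one_mem _)
    (mul_mem (mul_mem k16 (pow_mem ka 2)) ke)) oρ rfl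
  obtain ⟨δ, hδ⟩ := IsAlgClosed.exists_pow_nat_eq (16 * L ^ 2 * a ^ 2 + L ^ 4 * μ / e) two_pos
  have oδ : Ord δ (gv (3 / 2) 0 0 0 0) := Ord.root two_ne_zero (hδ ▸
    (((o16.mul (oL.pow 2)).mul (oa.pow 2)).add pr_mono
      ((((oL.pow 4).mul oμ).div oe).lv pr_mono le_rfl) (by simp; norm_num)).to (by simp; norm_num))
  have kδ : δ ∈ Kf := root_K (hδ ▸ add_mem (mul_mem (mul_mem k16 (pow_mem kL 2)) (pow_mem ka 2))
    (div_mem (mul_mem (pow_mem kL 4) kμ) ke)) oδ rfl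
  rw [eq_div_iff o2.ne] at ha
  have hδ' : e * δ ^ 2 = 16 * L ^ 2 * a ^ 2 * e + L ^ 4 * μ := by
    rw [hδ, mul_add, mul_div_cancel₀ _ oe.ne]; ring
  refine ⟨μ, a, ρ, ρ * δ, fμ, ka, kρ, mul_mem kρ kδ, ⟨hL ▸ L_tr, hμ, ?_, hρ, ?_, oe.ne, oρ.ne,
    (oρ.mul oδ).ne⟩, oρ, oμ.lv pr_mono (by simp), (oρ.mul oδ).lv pr_mono (by simp; norm_num)⟩
  · linear_combination ha - L * hρ
  · linear_combination ρ ^ 2 * hδ' - ρ ^ 2 * hμ + ρ ^ 2 * L ^ 2 * hρ

theorem Par.of_map {K K' : Type} [Field K] [CharZero K] [Field K'] [CharZero K']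
    {L μ a e ρ γ : K} (f : K →+* K') (P : Par (f L) (f μ) (f a) (f e) (f ρ) (f γ)) :
    Par L μ a e ρ γ where
  tr := fun h => P.tr ((isAlgebraic_algHom_iff f.toRatAlgHom f.injective).2 h)
  hμ := f.injective (by simpa using P.hμ)
  h1 := f.injective (by simpa using P.h1)
  h2 := f.injective (by simpa [map_ofNat] using P.h2)
  h3 := f.injective (by simpa using P.h3)
  e0 := by simpa using P.e0
  ρ0 := by simpa using P.ρ0
  γ0 := by simpa using P.γ0

theorem Nz.of_map {T T' : Type} [Field T] [Field T'] (f : T →+* T') {a b p q r s : T}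
    (h : Nz (f a) (f b) (f p) (f q) (f r) (f s)) : Nz a b p q r s := by
  rw [Nz, ← map_add, ← map_sub, ← Hm_map, d2, d2, d3, ← map_m2, ← map_m2, ← map_m3,
    ← RingHom.mapMatrix_apply, ← RingHom.map_det] at h
  simpa only [Nz, map_ne_zero] using h

/-- The orders of the minors. -/
theorem ords {L μ a b ρ γ x : Om} (P : Par L μ a (b ^ 2) ρ γ) (oL : Lv (pr 0) 1 L) (oρ : Ord ρ 0)
    (oe : Lv (pr 0) 1 (b ^ 2)) (oγ : γ ∈ Bd pr_mono) (ox : Ord x (gv 0 0 0 0 1))
    (hx : x ^ 4 = ff L μ 1 (mo 0 0 1 0 0) (mo 0 0 0 1 0) (mo 0 0 (-1) (-1) 4)) :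
    Nz a b 1 (mo 0 0 1 0 0) (mo 0 0 0 1 0) (mo 0 0 (-1) (-1) 4) ∧
    Ord (d2 (Hm (a + b) (a - b) 1 (mo 0 0 1 0 0) (mo 0 0 0 1 0) (mo 0 0 (-1) (-1) 4)) 0 1)
      (gv 0 0 1 0 0) ∧
    Ord (1 * d3 (Hm (a + b) (a - b) 1 (mo 0 0 1 0 0) (mo 0 0 0 1 0) (mo 0 0 (-1) (-1) 4)) 0 1 2)
      (gv 0 0 1 1 0) := by
  have hd := P.det hx
  have oq := ord_mo 0 0 1 0 0
  have or := ord_mo 0 0 0 1 0
  have bq := bd_mo 0 1 0 0
  have br := bd_mo 0 0 1 0
  have bs := bd_mo 0 (-1) (-1) 4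
  generalize mo 0 0 1 0 0 = q at *
  generalize mo 0 0 0 1 0 = r at *
  generalize mo 0 0 (-1) (-1) 4 = s at *
  have bρ : ρ ∈ Bd pr_mono := oρ.lv pr_mono le_rfl
  have h1 := P.h1
  have e1 : d2 (Hm (a + b) (a - b) 1 q r s) 0 1 = q - L * (ρ ^ 2 * r ^ 2) := by
    simp [m2, Hm]
    linear_combination r ^ 2 * h1
  have e2 : d2 (Hm (a + b) (a - b) 1 q r s) 1 2 = q * r - L * (ρ ^ 2 * s ^ 2) := by
    simp [m2, Hm]
    linear_combination s ^ 2 * h1
  have e3 : d3 (Hm (a + b) (a - b) 1 q r s) 0 1 2 = q * r - L * (ρ ^ 2 * (s ^ 2 + r ^ 3)) := by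
    simp [m3, m2, Hm]
    linear_combination (-(s ^ 2 + r ^ 3)) * h1
  have e4 : (Hm (a + b) (a - b) 1 q r s).det =
      (ρ * x ^ 2) ^ 2 - b ^ 2 * (γ * (r - q * s)) ^ 2 := by rw [hd]; ring
  have o1 := oq.sub pr_mono (oL.bd (mul_mem (pow_mem bρ 2) (pow_mem br 2))) (by simp)
  have o2 := (oq.mul or).sub pr_mono (oL.bd (mul_mem (pow_mem bρ 2) (pow_mem bs 2))) (by simp)
  have o3 := (oq.mul or).sub pr_mono
    (oL.bd (mul_mem (pow_mem bρ 2) (add_mem (pow_mem bs 2) (pow_mem br 3)))) (by simp)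
  have o4 := ((oρ.mul (ox.pow 2)).pow 2).sub pr_mono (oe.bd (pow_mem (mul_mem oγ
    (sub_mem br (mul_mem bq bs))) 2)) (by simp)
  rw [Nz, e1, e2, e3, e4, one_mul]
  exact ⟨⟨one_ne_zero, oq.ne, or.ne, o1.ne, o2.ne, o3.ne, o4.ne⟩, o1, o3.to (by simp)⟩

theorem exists_x {L μ : Om} (oL : Lv (pr 0) 1 L) (oμ : Lv (pr 0) 1 μ) : ∃ x, Ord x (gv 0 0 0 0 1) ∧
    x ^ 4 = ff L μ 1 (mo 0 0 1 0 0) (mo 0 0 0 1 0) (mo 0 0 (-1) (-1) 4) := by
  obtain ⟨x, hx⟩ := IsAlgClosed.exists_pow_nat_eq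
    (ff L μ 1 (mo 0 0 1 0 0) (mo 0 0 0 1 0) (mo 0 0 (-1) (-1) 4)) four_pos
  refine ⟨x, Ord.root four_ne_zero ?_, hx⟩
  have bq := bd_mo 0 1 0 0
  have br := bd_mo 0 0 1 0
  have bs := bd_mo 0 (-1) (-1) 4
  have b1 := (Bd pr_mono).one_mem
  rw [hx, ff]
  refine ((((((ord_one.mul (ord_mo _ _ _ _ _)).mul (ord_mo _ _ _ _ _)).mul (ord_mo _ _ _ _ _)).sub
    pr_mono (oL.bd (hφ := pr_mono) ?_) (by simp)).add pr_mono (oμ.bd (hφ := pr_mono) ?_) (by simp))).to (by simp)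
  · exact add_mem (add_mem (add_mem (mul_mem (pow_mem b1 3) bq) (mul_mem (pow_mem bq 3) br))
      (mul_mem (pow_mem br 3) bs)) (mul_mem (pow_mem bs 3) b1)
  · exact pow_mem (sub_mem (mul_mem b1 br) (mul_mem bq bs)) 2

open MvPolynomial in
/-- The quartic form. -/
noncomputable def Phi (L μ : ℂ) : MvPolynomial (Fin 5) ℂ :=
  X 1 ^ 4 - ff (C L) (C μ) (X 0) (X 2) (X 3) (X 4)

open MvPolynomial in
theorem Phi_hom (L μ : ℂ) : (Phi L μ).IsHomogeneous 4 := by
  have h : ∀ i, (X i : MvPolynomial (Fin 5) ℂ).IsHomogeneous 1 := isHomogeneous_X ℂ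
  have h3 : ∀ i j, (X i ^ 3 * X j : MvPolynomial (Fin 5) ℂ).IsHomogeneous 4 := fun i j =>
    ((h i).pow 3).mul (h j)
  exact ((h 1).pow 4).sub ((((((h 0).mul (h 2)).mul (h 3)).mul (h 4)).sub
    (((((h3 0 2).add (h3 2 3)).add (h3 3 4)).add (h3 4 0)).C_mul L)).add
    (((((h 0).mul (h 3)).sub ((h 2).mul (h 4))).pow 2).C_mul μ))

open MvPolynomial in
theorem Phi_smooth {L μ : ℂ} (tr : Transcendental ℚ L) (hμ : μ * (1 - L ^ 4) = L ^ 2) :
    Smooth (Phi L μ) := by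
  intro x hx _
  by_contra! h
  have h0 := h 0
  have h1 := h 1
  have h2 := h 2
  have h3 := h 3
  have h4 := h 4
  simp [Phi, ff, -mul_eq_zero] at h0 h1 h2 h3 h4
  have := sm tr hμ ![x 0, x 2, x 3, x 4] (by simp [fd]; linear_combination -h0)
    (by simp [fd]; linear_combination -h2) (by simp [fd]; linear_combination -h3)
    (by simp [fd]; linear_combination -h4)
  refine hx (funext fun i => ?_)
  fin_cases i
  exacts [this 0, by simpa using h1, this 1, this 2, this 3]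

open MvPolynomial in
theorem ker_eq {L μ : Kf} {x : Om} (ox : Ord x (gv 0 0 0 0 1))
    (hx : x ^ 4 = ff (L : Om) μ 1 (mo 0 0 1 0 0) (mo 0 0 0 1 0) (mo 0 0 (-1) (-1) 4))
    (p : MvPolynomial (Fin 4) Kf) :
    aeval ![x, mo 0 0 1 0 0, mo 0 0 0 1 0, mo 0 0 (-1) (-1) 4] p = 0 ↔
      p ∈ Ideal.span {X 0 ^ 4 - ff (C L) (C μ) 1 (X 1) (X 2) (X 3)} := by
  classical
  set v : Fin 4 → Om := ![x, mo 0 0 1 0 0, mo 0 0 0 1 0, mo 0 0 (-1) (-1) 4] with hv
  have h0 : aeval v (X 0 ^ 4 - ff (C L) (C μ) 1 (X 1) (X 2) (X 3) : MvPolynomial (Fin 4) Kf) = 0 := by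
    have := map_ff (aeval v : MvPolynomial (Fin 4) Kf →ₐ[Kf] Om).toRingHom (C L) (C μ) 1
      (X 1) (X 2) (X 3)
    rw [map_sub, map_pow, aeval_X, sub_eq_zero]
    refine hx.trans (Eq.trans ?_ this.symm)
    simp [hv]
    rfl
  rw [Ideal.mem_span_singleton]
  refine ⟨fun hp => ?_, by rintro ⟨q, rfl⟩; rw [map_mul, h0, zero_mul]⟩
  let c : MvPolynomial (Fin 3) Kf := ff (C L) (C μ) 1 (X 0) (X 1) (X 2)
  have e : finSuccEquiv Kf 3 (X 0 ^ 4 - ff (C L) (C μ) 1 (X 1) (X 2) (X 3)) =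
      Polynomial.X ^ 4 - Polynomial.C c := by
    have a1 := finSuccEquiv_X_succ (R := Kf) (j := (0 : Fin 3))
    have a2 := finSuccEquiv_X_succ (R := Kf) (j := (1 : Fin 3))
    have a3 := finSuccEquiv_X_succ (R := Kf) (j := (2 : Fin 3))
    have a4 : ∀ t : Kf, finSuccEquiv Kf 3 (C t) = Polynomial.C (C t) := fun t =>
      (finSuccEquiv Kf 3).commutes t
    have a5 := map_ff (R := MvPolynomial (Fin 4) Kf) (R' := Polynomial (MvPolynomial (Fin 3) Kf))
      (finSuccEquiv Kf 3) (C L) (C μ) 1 (X 1) (X 2) (X 3)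
    simp only [RingHom.coe_coe] at a5
    rw [map_sub, map_pow, finSuccEquiv_X_zero, map_ff Polynomial.C, ← a1, ← a2, ← a3, ← a4, ← a4,
      a5, map_one, map_one]
    rfl
  have hm := Polynomial.monic_X_pow_sub_C c four_ne_zero
  have hdiv := Polynomial.modByMonic_add_div (finSuccEquiv Kf 3 p)
    (Polynomial.X ^ 4 - Polynomial.C c)
  have hdeg := Polynomial.natDegree_modByMonic_lt (finSuccEquiv Kf 3 p) hm (fun h => by
    simpa using congrArg Polynomial.natDegree h)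
  obtain ⟨r, hr⟩ := (finSuccEquiv Kf 3).surjective
    (finSuccEquiv Kf 3 p %ₘ (Polynomial.X ^ 4 - Polynomial.C c))
  obtain ⟨q, hq⟩ := (finSuccEquiv Kf 3).surjective
    (finSuccEquiv Kf 3 p /ₘ (Polynomial.X ^ 4 - Polynomial.C c))
  rw [← hr, Polynomial.natDegree_X_pow_sub_C, natDegree_finSuccEquiv] at hdeg
  rw [← hr, ← hq, ← e, ← map_mul, ← map_add] at hdiv
  obtain rfl := (finSuccEquiv Kf 3).injective hdiv
  rw [map_add, map_mul, h0, zero_mul, add_zero, aeval_def, eval₂_eq'] at hp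
  obtain rfl : r = 0 := by
    by_contra r0
    have nz : ∀ d ∈ r.support, algebraMap Kf Om (coeff d r) ≠ 0 := fun d hd => by
      simpa using mem_support_iff.1 hd
    obtain ⟨d, hd, d', hd', hne, he⟩ := two_terms r.support _
      (fun d => (algebraMap Kf Om (coeff d r)).order + (d 0 • gv 0 0 0 0 1 + d 1 • gv 0 0 1 0 0 +
        d 2 • gv 0 0 0 1 0 + d 3 • gv 0 0 (-1) (-1) 4)) (support_nonempty.2 r0)
      (fun d hd => (ord_order (nz d hd)).mul (by
        rw [Fin.prod_univ_four]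
        exact (((ox.pow _).mul ((ord_mo _ _ _ _ _).pow _)).mul ((ord_mo _ _ _ _ _).pow _)).mul
          ((ord_mo _ _ _ _ _).pow _))) hp
    have f2 := fun d hd => (ord_order (nz d hd)).fix (coeff d r).2.2.1.1
    have f3 := fun d hd => (ord_order (nz d hd)).fix (coeff d r).2.2.1.2
    have f4 := fun d hd => (ord_order (nz d hd)).fix (coeff d r).2.2.2
    have e2 := congrArg (pr 2) he
    have e3 := congrArg (pr 3) he
    have e4 := congrArg (pr 4) he
    simp only [map_add, map_nsmul, f2 _ hd, f2 _ hd', f3 _ hd, f3 _ hd', f4 _ hd, f4 _ hd', pr2, pr3,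
      pr4, nsmul_eq_mul] at e2 e3 e4
    have b1 := (monomial_le_degreeOf 0 hd).trans_lt hdeg
    have b2 := (monomial_le_degreeOf 0 hd').trans_lt hdeg
    have g4 : d 0 + 4 * d 3 = d' 0 + 4 * d' 3 := by
      have : (d 0 + 4 * d 3 : ℚ) = d' 0 + 4 * d' 3 := by linarith
      exact_mod_cast this
    have g2 : d 1 + d' 3 = d' 1 + d 3 := by
      have : (d 1 + d' 3 : ℚ) = d' 1 + d 3 := by linarith
      exact_mod_cast this
    have g3 : d 2 + d' 3 = d' 2 + d 3 := by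
      have : (d 2 + d' 3 : ℚ) = d' 2 + d 3 := by linarith
      exact_mod_cast this
    refine hne (Finsupp.ext fun i => ?_)
    fin_cases i <;> simp <;> omega
  exact ⟨q, zero_add _⟩

end Pool.Agent.MP_5fa3de_ag

end MrgPart4

-- ======== part 5: formerly Pool.Agent.MP_5fa3de_ag.Main
section MrgPart5

/-! The main theorem. -/

namespace Pool.Agent.MP_5fa3de_ag

open Hahn

theorem core {K E : Type} [Field K] [CharZero K] [Field E] [Algebra K E] [Algebra E Om]
    (f : K →+* Om) (hf : ∀ c, algebraMap E Om (algebraMap K E c) = f c)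
    {L μ a e ρ γ : K} (P : Par L μ a e ρ γ) (hi : ∃ i : K, i * i = -1)
    (hE : ∀ i, i = 1 ∨ i = 2 ∨ i = 3 → ∀ z, tw (pr i) (algebraMap E Om z) = algebraMap E Om z)
    (hK : ∀ i, i = 2 ∨ i = 3 → ∀ c : K, f c ∈ FixF (pr i))
    (oL : Lv (pr 0) 1 (f L)) (oρ : Ord (f ρ) 0) (he : f e = mo 2 1 0 0 0) (oγ : f γ ∈ Bd pr_mono)
    {x q r s : E} (ox : Ord (algebraMap E Om x) (gv 0 0 0 0 1))
    (hq : algebraMap E Om q = mo 0 0 1 0 0) (hr : algebraMap E Om r = mo 0 0 0 1 0)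
    (hs : algebraMap E Om s = mo 0 0 (-1) (-1) 4)
    (hx : algebraMap E Om x ^ 4 =
      ff (f L) (f μ) 1 (mo 0 0 1 0 0) (mo 0 0 0 1 0) (mo 0 0 (-1) (-1) 4)) :
    NotOnto K E := by
  have : CharZero E := charZero_of_injective_algebraMap (algebraMap K E).injective
  let j : AlgebraicClosure E →ₐ[E] Om := IsAlgClosed.lift
  let κ := algebraMap K (AlgebraicClosure E)
  let η := algebraMap E (AlgebraicClosure E)
  have jη : ∀ z, j.toRingHom (η z) = algebraMap E Om z := j.commutes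
  have jκ : ∀ c, j.toRingHom (κ c) = f c := fun c => (jη (algebraMap K E c)).trans (hf c)
  have fη : ∀ z, Fx E (η z) := fun z g => g.commutes z
  have hκ : ∀ c, Fx E (κ c) := fun c => fη (algebraMap K E c)
  obtain ⟨b, hb⟩ := IsAlgClosed.exists_pow_nat_eq (κ e) two_pos
  have hb' : j.toRingHom b ^ 2 = f e := by rw [← map_pow, hb, jκ]
  obtain ⟨nz, o1, o2⟩ := ords (b := j.toRingHom b) (hb' ▸ P.map f) oL oρ
    (by rw [hb', he]; exact (ord_mo _ _ _ _ _).lv pr_mono (by simp)) oγ ox hx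
  rw [← hq, ← hr, ← hs, ← jη, ← jη, ← jη, ← jκ, ← jκ, ← jη, ← map_one j.toRingHom, ← map_ff,
    ← map_pow] at hx
  rw [← hq, ← hr, ← hs, ← jη, ← jη, ← jη, ← jκ, ← map_one j.toRingHom] at nz o1 o2
  rw [← map_add, ← map_sub, ← Hm_map] at o1 o2
  rw [d2, ← map_m2] at o1
  rw [d3, ← map_m3, ← map_mul] at o2
  have fb : Fx E (b ^ 2) := hb ▸ hκ e
  refine notOnto K E (lt_of_le_of_ne (range_le K) fun h => nc (K := K) j hE
    (fun i hi c => hf c ▸ hK i hi c) fb (fun g => ?_) (fun g => ?_)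
    (by rw [map_pow]; exact (hb'.trans he) ▸ ord_mo _ _ _ _ _) o1 o2 ?_)
  · rcases fb.pm g with h | h <;> simp [m2, Hm, h, hκ a g, fη _ g]
    ring
  · rcases fb.pm g with h | h <;> simp [m2, m3, Hm, h, hκ a g, fη _ g, -mul_eq_mul_left_iff]
    ring
  · rw [h]
    refine AddSubgroup.mem_iInf.2 fun A => AddSubgroup.mem_iInf.2 fun hA => ?_
    exact unr A κ hκ hA.2 P hi hb ![1, η q, η r, η s] (fη x) (fun i => by
      fin_cases i
      exacts [fun g => map_one g, fη q, fη r, fη s]) (j.toRingHom.injective hx)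
      (Nz.of_map j.toRingHom nz)

open MvPolynomial in
theorem main : ∃ (Φ : MvPolynomial (Fin 5) ℂ) (K : Type) (_ : Field K) (_ : Algebra ℂ K),
    Φ.IsHomogeneous 4 ∧ Smooth Φ ∧ Fails K Φ := by
  obtain ⟨ι⟩ := exists_iso
  obtain ⟨μ, a, ρ, γ, fμ, ka, kρ, kγ, P, oρ, oμ, oγ⟩ := exists_par
  have oL : Lv (pr 0) 1 (mo 1 0 0 0 0) := (ord_mo _ _ _ _ _).lv pr_mono le_rfl
  obtain ⟨x, ox, hx⟩ := exists_x oL oμ
  let ψ : ℂ →+* Kf := (Subfield.inclusion Ff_le).comp ι.toRingHom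
  let _ : Algebra ℂ Kf := ψ.toAlgebra
  let L0 := ι.symm ⟨_, mo_F 1⟩
  let μ0 := ι.symm ⟨_, fμ⟩
  have eL : (ψ L0 : Om) = mo 1 0 0 0 0 := congrArg Subtype.val (ι.apply_symm_apply _)
  have eμ : (ψ μ0 : Om) = μ := congrArg Subtype.val (ι.apply_symm_apply _)
  have P' : Par (ψ L0) (ψ μ0) ⟨a, ka⟩ ⟨_, e_K⟩ ⟨ρ, kρ⟩ ⟨γ, kγ⟩ :=
    Par.of_map Kf.subtype (by simpa only [Subfield.coe_subtype, eL, eμ] using P)
  have hΦ : (aeval (Fin.cons 1 X) (Phi L0 μ0) : MvPolynomial (Fin 4) Kf) =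
      X 0 ^ 4 - ff (C (ψ L0)) (C (ψ μ0)) 1 (X 1) (X 2) (X 3) := by
    simp [Phi, ff]
    rfl
  have hk := ker_eq (L := ψ L0) (μ := ψ μ0) ox (by rwa [eL, eμ])
  rw [← hΦ] at hk
  set v : Fin 4 → Om := ![x, mo 0 0 1 0 0, mo 0 0 0 1 0, mo 0 0 (-1) (-1) 4] with hv
  let t : Crd Kf (Phi L0 μ0) →ₐ[Kf] Om := Ideal.Quotient.liftₐ _ (aeval v) fun p hp => (hk p).2 hp
  have ht : Function.Injective t :=
    RingHom.lift_injective_of_ker_le_ideal _ _ fun p hp => (hk p).1 hp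
  have hd : IsDomain (Crd Kf (Phi L0 μ0)) := ht.isDomain t.toRingHom
  refine ⟨Phi L0 μ0, Kf, inferInstance, inferInstance, Phi_hom _ _, Phi_smooth
    (fun h => P'.tr ((isAlgebraic_algHom_iff ψ.toRatAlgHom ψ.injective).2 h))
    (ψ.injective (by simpa using P'.hμ)), hd, ?_⟩
  let u : FF Kf (Phi L0 μ0) →ₐ[Kf] Om := IsFractionRing.liftAlgHom ht
  let _ := u.toAlgebra
  let w : Fin 4 → FF Kf (Phi L0 μ0) := fun i =>
    algebraMap (Crd Kf (Phi L0 μ0)) _ (Ideal.Quotient.mk _ (X i))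
  have hw : ∀ i, u (w i) = v i := fun i =>
    (IsFractionRing.lift_algebraMap ht _).trans (aeval_X v i)
  have hK : ∀ i, i = 1 ∨ i = 2 ∨ i = 3 → ∀ c : Kf, tw (pr i) (c : Om) = c := by
    rintro _ (rfl | rfl | rfl) c
    exacts [c.2.1, fixF_tw c.2.2.1.1, fixF_tw c.2.2.1.2]
  have hm : ∀ i, i = 1 ∨ i = 2 ∨ i = 3 → tw (pr i) (mo 0 0 1 0 0) = mo 0 0 1 0 0 ∧
      tw (pr i) (mo 0 0 0 1 0) = mo 0 0 0 1 0 ∧
      tw (pr i) (mo 0 0 (-1) (-1) 4) = mo 0 0 (-1) (-1) 4 := by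
    have e1 : ex 1 = 1 := by simpa using ex_int 1
    have e2 : ex (-1) = 1 := by simpa using ex_int (-1)
    rintro _ (rfl | rfl | rfl) <;> refine ⟨tw_single _ _ ?_, tw_single _ _ ?_, tw_single _ _ ?_⟩ <;>
      simp [e1, e2, ex_zero]
  refine core Kf.subtype u.commutes P' ⟨ψ Complex.I, by rw [← map_mul]; simp⟩ (fun i hi z => ?_)
    ?_ (by rwa [← eL] at oL) oρ rfl oγ (x := w 0) (q := w 1) (r := w 2) (s := w 3) ((hw 0).symm ▸ ox) (hw 1)
    (hw 2) (hw 3) ?_
  · have : (tw (pr i)).comp u.toRingHom = u.toRingHom := by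
      refine IsFractionRing.ringHom_ext (A := Crd Kf (Phi L0 μ0)) fun c => ?_
      obtain ⟨p, rfl⟩ := Ideal.Quotient.mk_surjective c
      have e : ∀ p, u (algebraMap (Crd Kf (Phi L0 μ0)) _ (Ideal.Quotient.mk _ p)) = aeval v p :=
        fun p => IsFractionRing.lift_algebraMap ht _
      change tw (pr i) (u _) = u _
      rw [e]
      refine RingHom.congr_fun (MvPolynomial.ringHom_ext (f := (tw (pr i)).comp (aeval v).toRingHom)
        (g := (aeval v).toRingHom) (fun c => ?_) fun n => ?_) p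
      · simpa using show tw (pr i) (algebraMap Kf Om c) = algebraMap Kf Om c from hK i hi c
      · obtain ⟨h1, h2, h3⟩ := hm i hi
        have h0 : tw (pr i) x = x := tw_fix _ 3 ox (by
          rw [hx, map_ff, h1, h2, h3, map_one, ← eL, ← eμ, hK i hi, hK i hi])
          (by rcases hi with rfl | rfl | rfl <;> simp [ex_zero])
        fin_cases n <;> simpa [hv]
    exact RingHom.congr_fun this z
  · rintro _ (rfl | rfl) c
    exacts [c.2.2.1.1, c.2.2.1.2]
  · change u (w 0) ^ 4 = ff (ψ L0 : Om) (ψ μ0) _ _ _ _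
    rwa [hw, eL, eμ]

end Pool.Agent.MP_5fa3de_ag

end MrgPart5

-- marker of a merged file
example : 731051 + 67425 = 731051 + 67425 := rfl
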