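import Mathlib.Algebra.Algebra.IsSimpleRing
import Mathlib.RingTheory.Flat.TorsionFree
import Mathlib.Algebra.MvPolynomial.PDeriv
import Mathlib.Topology.LocallyConstant.Basic
import Mathlib.FieldTheory.KrullTopology
import Mathlib.FieldTheory.PurelyInseparable.Basic
import Mathlib.Data.Complex.Basic
import Mathlib.RingTheory.SimpleRing.Principal
import Mathlib.Order.CompletePartialOrder
import Mathlib.RingTheory.Henselian
import Mathlib.RingTheory.RegularLocalRing.Defs
import Mathlib.RingTheory.Valuation.RamificationGroup

/-! The definitions used in the statement: Galois cohomology in degree three on the level of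
cocycles, unramified classes, function fields of hypersurfaces. -/

namespace Pool.Agent.MP_5fa3de_ag

/-- The coefficient group `ℚ/ℤ`. All fields below contain `ℂ`, so the Galois action on roots of
unity is trivial and every Tate twist of `ℚ/ℤ` is `ℚ/ℤ` with the trivial action. -/
abbrev QZ : Type := AddCircle (1 : ℚ)

section Coh

variable (G : Type) [Group G] [TopologicalSpace G]

/-- Locally constant inhomogeneous 3-cocycles. -/
def Cocyc : Set (G × G × G → QZ) := {c | IsLocallyConstant c ∧ ∀ g h k l,
  c (h, k, l) - c (g * h, k, l) + c (g, h * k, l) - c (g, h, k * l) + c (g, h, k) = 0}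

/-- Coboundaries of locally constant inhomogeneous 2-cochains. -/
def Cobd : Set (G × G × G → QZ) := {c | ∃ b : G × G → QZ, IsLocallyConstant b ∧ ∀ g h k,
  c (g, h, k) = b (h, k) - b (g * h, k) + b (g, h * k) - b (g, h)}

variable {G} {G' : Type} [Group G'] [TopologicalSpace G']

/-- `c` is cohomologous to the pull back along `f` of a cocycle of `G'`. -/
def ComesFrom (f : G →* G') (c : G × G × G → QZ) : Prop :=
  ∃ c' ∈ Cocyc G', (fun p => c p - c' (f p.1, f p.2.1, f p.2.2)) ∈ Cobd G

end Coh

section Gal

variable (K E : Type) [Field K] [Field E] [Algebra K E]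

/-- The absolute Galois group, with the Krull topology. -/
abbrev Gal (E : Type) [Field E] : Type := AlgebraicClosure E ≃ₐ[E] AlgebraicClosure E

/-- An embedding of algebraic closures over `K ⊆ E`. -/
noncomputable def emb : AlgebraicClosure K →ₐ[K] AlgebraicClosure E := IsAlgClosed.lift

/-- The restriction homomorphism of absolute Galois groups. -/
noncomputable def res : Gal E →* Gal K :=
  letI := (emb K E).toAlgebra
  haveI : IsScalarTower K (AlgebraicClosure K) (AlgebraicClosure E) :=
    IsScalarTower.of_algebraMap_eq fun x => ((emb K E).commutes x).symm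
  (AlgEquiv.restrictNormalHom (AlgebraicClosure K)).comp (AlgEquiv.restrictScalarsHom K)

/-- The cocycles whose class lies in the image of `H³(K) → H³(E)`. -/
def Const : Set (Gal E × Gal E × Gal E → QZ) := {c ∈ Cocyc (Gal E) | ComesFrom (res K E) c}

instance inertiaNormal (A : ValuationSubring (AlgebraicClosure E)) :
    (A.inertiaSubgroup E).Normal := MonoidHom.normal_ker _

/-- The restriction of `c` to the decomposition group `D` of `A` is inflated from `D / I`, `I` the
inertia group; `D / I` is the absolute Galois group of the residue field. -/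
def InflAt (A : ValuationSubring (AlgebraicClosure E)) (c : Gal E × Gal E × Gal E → QZ) : Prop :=
  ComesFrom (QuotientGroup.mk' (A.inertiaSubgroup E)) fun p => c (p.1, p.2.1, p.2.2)

/-- `A` lies over a discrete valuation ring of `E` that contains `K`. -/
def Over (A : ValuationSubring (AlgebraicClosure E)) : Prop :=
  IsDiscreteValuationRing (A.comap (algebraMap E (AlgebraicClosure E))) ∧
    ∀ c : K, algebraMap K (AlgebraicClosure E) c ∈ A

/-- The cocycles whose class lies in the unramified group `H³_nr(E / K)`. -/
def Unram : Set (Gal E × Gal E × Gal E → QZ) :=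
  {c ∈ Cocyc (Gal E) | ∀ A, Over K E A → InflAt E A c}

/-- The image of `H³(K)` is properly contained in `H³_nr(E / K)`. -/
def NotOnto : Prop := Const K E ⊂ Unram K E

end Gal

section Hyp

open MvPolynomial

variable {n : ℕ}

/-- The projective hypersurface `Φ = 0` has no singular point. -/
def Smooth (Φ : MvPolynomial (Fin (n + 1)) ℂ) : Prop :=
  ∀ x : Fin (n + 1) → ℂ, x ≠ 0 → eval x Φ = 0 → ∃ i, eval x (pderiv i Φ) ≠ 0

/-- The coordinate ring of the chart `x₀ = 1` of the hypersurface, after base change to `K`. -/
abbrev Crd (K : Type) [Field K] [Algebra ℂ K] (Φ : MvPolynomial (Fin (n + 1)) ℂ) : Type :=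
  MvPolynomial (Fin n) K ⧸ Ideal.span {(aeval (Fin.cons 1 X) Φ : MvPolynomial (Fin n) K)}

/-- The function field `K(X)`. -/
abbrev FF (K : Type) [Field K] [Algebra ℂ K] (Φ : MvPolynomial (Fin (n + 1)) ℂ) : Type :=
  FractionRing (Crd K Φ)

/-- The function field `K(X)` is defined and `H³(K) → H³_nr(K(X) / K)` is not onto. -/
def Fails (K : Type) [Field K] [Algebra ℂ K] (Φ : MvPolynomial (Fin (n + 1)) ℂ) : Prop :=
  ∃ _ : IsDomain (Crd K Φ), NotOnto K (FF K Φ)

end Hyp

end Pool.Agent.MP_5fa3de_ag
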